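import Mathlib

set_option autoImplicit false

/-!
Columns of an oracle.
-/

namespace Pool.Agent.V7H75.TX

/-- the column with the number `i`: its value at `y` is the value of `X` at the code of `(i, y)` -/
def col (i : ℕ) (X : ℕ → Bool) : ℕ → Bool := fun y => X (Nat.pair i y)

/-- the columns above `c` in the order `O`; the other columns are made empty -/
def up (O : ℕ → ℕ → Bool) (c : ℕ) (X : ℕ → Bool) : ℕ → Bool := fun z => O c z.unpair.1 && X z

end Pool.Agent.V7H75.TX
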