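import Pool.Agent.V7H75.TX.Reach

set_option autoImplicit false

/-!
The extension of an effective system of finite lists by changes of a further part of the oracle.
-/

namespace Pool.Agent.V7H75.TX

open Encodable Pool.Agent.Helper227
open Pool.Agent.V7H75.HF (Cl UD U1 evn odd evn_join odd_join rd rd_join cd cd_encode)
open Pool.Agent.V7H67.IB (Sys dk dk_encode dk_zero dk_prim bl bl_mono bl_prim encode_le_bl)

theorem jn_evn_odd (X : ℕ → Bool) : join (evn X) (odd X) = X := by
  funext n
  unfold join evn odd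
  by_cases h : n % 2 = 0
  · rw [if_pos h]
    congr 1
    omega
  · rw [if_neg h]
    congr 1
    omega

/-- the maps of the extension -/
def eT (α T : ℕ → (ℕ → Bool) → ℕ → Bool) (k : ℕ) (X : ℕ → Bool) : ℕ → Bool :=
  join (ap α T (dk k.unpair.2) (odd X) (evn X)) (T k.unpair.1 (odd X))

/-- the multiplication of the indices -/
def em (m : ℕ → ℕ → ℕ) (j k : ℕ) : ℕ :=
  Nat.pair (m j.unpair.1 k.unpair.1) (encode ((dk j.unpair.2).map
    (fun b => Nat.pair b.unpair.1 (m b.unpair.2 k.unpair.1)) ++ dk k.unpair.2))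

/-- the bounds -/
def ec (c : ℕ → ℕ) (N : ℕ → ℕ → ℕ) (n : ℕ) : ℕ :=
  (c n + bl (Nat.pair n (c n)) (N n (c n)) + 1) ^ 2

/-- the indices of the members of the list -/
def eR (c : ℕ → ℕ) (R : ℕ → (ℕ → Bool) → ℕ → Prop) (N : ℕ → ℕ → ℕ) (n : ℕ) (X : ℕ → Bool)
    (k : ℕ) : Prop :=
  (k.unpair.1 < c n ∧ R n (odd X) k.unpair.1) ∧ (dk k.unpair.2).length ≤ N n (c n) ∧
    Ok c R n (odd X) (dk k.unpair.2)

theorem pair_mono {a b a' b' : ℕ} (h : a ≤ a') (h' : b ≤ b') : Nat.pair a b ≤ Nat.pair a' b' := by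
  have h1 : Nat.pair a b ≤ Nat.pair a' b := by
    rcases Nat.lt_or_eq_of_le h with h2 | h2
    · exact (Nat.pair_lt_pair_left b h2).le
    · rw [h2]
  have h3 : Nat.pair a' b ≤ Nat.pair a' b' := by
    rcases Nat.lt_or_eq_of_le h' with h2 | h2
    · exact (Nat.pair_lt_pair_right a' h2).le
    · rw [h2]
  exact h1.trans h3

section lists

variable {α T : ℕ → (ℕ → Bool) → ℕ → Bool} {m : ℕ → ℕ → ℕ} {c : ℕ → ℕ}
  {R : ℕ → (ℕ → Bool) → ℕ → Prop} {N : ℕ → ℕ → ℕ}

theorem encard_Cl (n : ℕ) (Z : ℕ → Bool) : (Cl c T R n Z).encard ≤ c n := by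
  refine (Set.encard_le_encard (Pool.Agent.V7H75.HF.Cl_sub n Z)).trans ?_
  refine (Set.encard_image_le _ _).trans ?_
  rw [Set.encard_coe_eq_coe_finsetCard, Finset.card_range]

variable (hN : ∀ (n q : ℕ) (P : Set (ℕ → Bool)) (A : ℕ → Bool), P.encard ≤ q →
  (Orb α n P A).encard ≤ N n q)

include hN in
theorem mem_Cl {n : ℕ} {X Y : ℕ → Bool} : Y ∈ Cl (ec c N) (eT α T) (eR c R N) n X ↔
    odd Y ∈ Cl c T R n (odd X) ∧ evn Y ∈ Orb α n (Cl c T R n (odd X)) (evn X) := by
  constructor
  · rintro ⟨k, -, ⟨⟨h1, h2⟩, -, h3⟩, rfl⟩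
    unfold eT
    rw [odd_join, evn_join]
    exact ⟨⟨_, h1, h2, rfl⟩, ap_mem h3⟩
  · rintro ⟨⟨v, h1, h2, h3⟩, h4⟩
    obtain ⟨D, h5, h6, h7⟩ := exists_word (hN n (c n) _ (evn X) (encard_Cl n (odd X))) h4
    have hb : encode D ≤ bl (Nat.pair n (c n)) (N n (c n)) := by
      refine (encode_le_bl (Nat.pair n (c n)) D fun b hb => ?_).trans (bl_mono _ h5)
      have h8 := h6 b hb
      rw [← Nat.pair_unpair b]
      exact pair_mono h8.1.le h8.2.1.le
    refine ⟨Nat.pair v (encode D), ?_, ⟨⟨?_, ?_⟩, ?_, ?_⟩, ?_⟩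
    · have h8 := Nat.pair_lt_max_add_one_sq v (encode D)
      have h9 : max v (encode D) + 1 ≤ c n + bl (Nat.pair n (c n)) (N n (c n)) + 1 := by omega
      exact h8.trans_le (Nat.pow_le_pow_left h9 2)
    · rw [Nat.unpair_pair]
      exact h1
    · rw [Nat.unpair_pair]
      exact h2
    · rw [Nat.unpair_pair, dk_encode]
      exact h5
    · rw [Nat.unpair_pair, dk_encode]
      exact h6
    · unfold eT
      rw [Nat.unpair_pair, dk_encode, ← h7, ← h3, jn_evn_odd]

include hN in
theorem esys (h : Sys m c T R) : Sys (em m) (ec c N) (eT α T) (eR c R N) where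
  comp j k X := by
    unfold eT em
    rw [odd_join, evn_join, Nat.unpair_pair, dk_encode, h.comp]
    congr 1
    rw [ap_append]
    generalize dk j.unpair.2 = D
    generalize ap α T (dk k.unpair.2) (odd X) (evn X) = B
    induction D with
    | nil => rfl
    | cons b D ih =>
      rw [List.map_cons, ap_cons, ap_cons, ih, h.comp, Nat.unpair_pair]
  one X := by
    unfold eT
    have h1 : Nat.unpair 0 = (0, 0) := by
      rw [← Nat.unpair_pair 0 0]
      rfl
    rw [h1]
    dsimp only
    rw [dk_zero, h.one]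
    exact jn_evn_odd X
  self n X := (mem_Cl hN).2 ⟨h.self n _, Relation.ReflTransGen.refl⟩

theorem Orb_symm (hα : ∀ l A Z, α l (join (α l (join A Z)) Z) = A) {n : ℕ}
    {P : Set (ℕ → Bool)} {A B : ℕ → Bool} (h : B ∈ Orb α n P A) : A ∈ Orb α n P B := by
  induction h with
  | refl => exact Relation.ReflTransGen.refl
  | tail _ h2 ih =>
    obtain ⟨l, hl, p, hp, rfl⟩ := h2
    exact Relation.ReflTransGen.head ⟨l, hl, p, hp, (hα l _ p).symm⟩ ih

include hN in
theorem eCl_eq (hα : ∀ l A Z, α l (join (α l (join A Z)) Z) = A) {n : ℕ} {X Y : ℕ → Bool}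
    (h1 : Cl c T R n (odd X) = Cl c T R n (odd Y))
    (h2 : evn Y ∈ Orb α n (Cl c T R n (odd X)) (evn X)) :
    Cl (ec c N) (eT α T) (eR c R N) n X = Cl (ec c N) (eT α T) (eR c R N) n Y := by
  ext B
  rw [mem_Cl hN, mem_Cl hN, ← h1]
  refine and_congr_right fun _ => ⟨fun h => ?_, fun h => ?_⟩
  · exact Relation.ReflTransGen.trans (Orb_symm hα h2) h
  · exact Relation.ReflTransGen.trans h2 h

end lists

/-! ### computability -/

section eff

theorem UD.odd' {β : Type} [Primcodable β] {p : (ℕ → Bool) → β → Prop} (hp : UD p) :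
    UD fun W a => p (odd W) a := by
  have h1 : UD fun W (x : Unit × ℕ) => odd W x.2 = true :=
    UD.query.comp (f := fun x : Unit × ℕ => 2 * x.2 + 1)
      (Primrec.succ.comp (Primrec.nat_mul.comp (Primrec.const 2) Primrec.snd)).to_comp
  have h2 := UD.sub (F := fun W (_ : Unit) => odd W) h1 hp
  exact h2.comp (f := fun a : β => ((), a)) ((Computable.const ()).pair Computable.id)

variable {α T : ℕ → (ℕ → Bool) → ℕ → Bool}

theorem join_UD {β : Type} [Primcodable β] {F G : (ℕ → Bool) → β → ℕ → Bool}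
    (hF : UD fun W (x : β × ℕ) => F W x.1 x.2 = true)
    (hG : UD fun W (x : β × ℕ) => G W x.1 x.2 = true) :
    UD fun W (x : β × ℕ) => join (F W x.1) (G W x.1) x.2 = true := by
  have he : UD fun (_ : ℕ → Bool) (x : β × ℕ) => x.2 % 2 = 0 :=
    UD.of_prim (Primrec.eq.comp (Primrec.nat_mod.comp Primrec.snd (Primrec.const 2))
      (Primrec.const 0))
  have hd : Computable fun x : β × ℕ => ((x.1, x.2 / 2) : β × ℕ) :=
    (Primrec.fst.pair (Primrec.nat_div.comp Primrec.snd (Primrec.const 2))).to_comp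
  refine (UD.or (UD.and he (hF.comp hd)) (UD.and he.not (hG.comp hd))).of_eq fun W x => ?_
  unfold join
  by_cases h : x.2 % 2 = 0 <;> simp [h]

theorem ap_UD (hα : UD fun B (x : ℕ × ℕ) => α x.1 B x.2 = true)
    (hT : UD fun B (x : ℕ × ℕ) => T x.1 B x.2 = true) :
    UD fun B (x : List ℕ × ℕ) => ap α T x.1 (odd B) (evn B) x.2 = true := by
  have hs : Primrec fun x : ℕ × (List ℕ × ℕ) => x.1 := Primrec.fst
  have hl : Primrec fun x : ℕ × (List ℕ × ℕ) => x.2.1.length :=
    Primrec.list_length.comp (Primrec.fst.comp Primrec.snd)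
  have hb : Primrec fun x : ℕ × (List ℕ × ℕ) => x.2.1.getD (x.2.1.length - (x.1 + 1)) 0 :=
    (Primrec.list_getD 0).comp (Primrec.fst.comp Primrec.snd)
      (Primrec.nat_sub.comp hl (Primrec.succ.comp hs))
  have h1 : UD fun B (x : ℕ × (List ℕ × ℕ)) =>
      ap α T (x.2.1.drop (x.2.1.length - x.1)) (odd B) (evn B) x.2.2 = true := by
    refine UD.iter' (Y := fun B s (a : List ℕ × ℕ) =>
        ap α T (a.1.drop (a.1.length - s)) (odd B) (evn B) a.2 = true)
      (S := fun W (x : ℕ × (List ℕ × ℕ)) => (x.1 < x.2.1.length ∧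
        α (x.2.1.getD (x.2.1.length - (x.1 + 1)) 0).unpair.1
          (join (fun z => odd W (encode (x.2.1, z)))
            (T (x.2.1.getD (x.2.1.length - (x.1 + 1)) 0).unpair.2 (odd (evn W)))) x.2.2 =
          true) ∨ (¬ x.1 < x.2.1.length ∧ rd W x.2)) ?_ ?_ ?_
    · refine (UD.evn (UD.query.comp (Computable.snd (α := List ℕ) (β := ℕ)))).of_eq
        fun B a => ?_
      simp [ap]
    · have h0 : UD fun (_ : ℕ → Bool) (x : ℕ × (List ℕ × ℕ)) => x.1 < x.2.1.length :=
        UD.of_prim (Primrec.nat_lt.comp hs hl)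
      refine UD.or (UD.and h0 ?_) (UD.and h0.not (UD.rd.comp Computable.snd))
      have hF : UD fun W (x : (List ℕ × ℕ) × ℕ) => join (fun z => odd W (encode (x.1.1, z)))
          (T x.1.2 (odd (evn W))) x.2 = true := by
        refine join_UD (F := fun W (w : List ℕ × ℕ) => fun z => odd W (encode (w.1, z)))
          (G := fun W (w : List ℕ × ℕ) => T w.2 (odd (evn W))) ?_ ?_
        · exact (UD.rd (α := List ℕ × ℕ)).comp (f := fun x : (List ℕ × ℕ) × ℕ => (x.1.1, x.2))
            ((Primrec.fst.comp Primrec.fst).pair Primrec.snd).to_comp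
        · exact (UD.evn (UD.odd' hT)).comp (f := fun x : (List ℕ × ℕ) × ℕ => (x.1.2, x.2))
            ((Primrec.snd.comp Primrec.fst).pair Primrec.snd).to_comp
      have h2 := UD.sub (F := fun W (w : List ℕ × ℕ) =>
        join (fun z => odd W (encode (w.1, z))) (T w.2 (odd (evn W)))) hF hα
      exact h2.comp (f := fun x : ℕ × (List ℕ × ℕ) =>
        ((x.2.1, (x.2.1.getD (x.2.1.length - (x.1 + 1)) 0).unpair.2),
          ((x.2.1.getD (x.2.1.length - (x.1 + 1)) 0).unpair.1, x.2.2)))
        (((Primrec.fst.comp Primrec.snd).pair (Primrec.snd.comp (Primrec.unpair.comp hb))).pair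
          ((Primrec.fst.comp (Primrec.unpair.comp hb)).pair
            (Primrec.snd.comp Primrec.snd))).to_comp
    · rintro B s ⟨w, y⟩
      simp only [rd_join, odd_join, evn_join]
      have h3 : (fun z => cd (fun a : List ℕ × ℕ =>
          ap α T (a.1.drop (a.1.length - s)) (odd B) (evn B) a.2 = true) (encode (w, z))) =
            ap α T (w.drop (w.length - s)) (odd B) (evn B) := by
        funext z
        rw [Bool.eq_iff_iff, cd_encode]
      rw [h3]
      by_cases h4 : s < w.length
      · simp only [h4, true_and, not_true_eq_false, false_and, or_false]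
        have h5 : w.drop (w.length - (s + 1)) =
            w.getD (w.length - (s + 1)) 0 :: w.drop (w.length - s) := by
          rw [List.drop_eq_getElem_cons (by omega), List.getD_eq_getElem _ _ (by omega)]
          congr 2
          omega
        rw [h5, ap_cons]
      · simp only [h4, false_and, not_false_eq_true, true_and, false_or]
        rw [show w.length - (s + 1) = w.length - s by omega]
  refine (h1.comp (f := fun x : List ℕ × ℕ => (x.1.length, x))
    ((Primrec.list_length.comp Primrec.fst).pair Primrec.id).to_comp).of_eq fun B x => ?_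
  simp

theorem eT_UD (hα : UD fun B (x : ℕ × ℕ) => α x.1 B x.2 = true)
    (hT : UD fun B (x : ℕ × ℕ) => T x.1 B x.2 = true) :
    UD fun B (x : ℕ × ℕ) => eT α T x.1 B x.2 = true := by
  refine join_UD (F := fun B (k : ℕ) => ap α T (dk k.unpair.2) (odd B) (evn B))
    (G := fun B (k : ℕ) => T k.unpair.1 (odd B)) ?_ ?_
  · exact (ap_UD hα hT).comp (f := fun x : ℕ × ℕ => (dk x.1.unpair.2, x.2))
      ((dk_prim.comp (Primrec.snd.comp (Primrec.unpair.comp Primrec.fst))).pair
        Primrec.snd).to_comp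
  · exact (UD.odd' hT).comp (f := fun x : ℕ × ℕ => (x.1.unpair.1, x.2))
      ((Primrec.fst.comp (Primrec.unpair.comp Primrec.fst)).pair Primrec.snd).to_comp

theorem em_comp {m : ℕ → ℕ → ℕ} (hm : Computable₂ m) : Computable₂ (em m) := by
  have hj : Primrec fun x : ℕ × ℕ => x.1.unpair := Primrec.unpair.comp Primrec.fst
  have hk : Primrec fun x : ℕ × ℕ => x.2.unpair := Primrec.unpair.comp Primrec.snd
  have h1 : Computable fun x : ℕ × ℕ => m x.1.unpair.1 x.2.unpair.1 :=
    hm.comp (Primrec.fst.comp hj).to_comp (Primrec.fst.comp hk).to_comp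
  have h2 : Computable fun x : List ℕ × ℕ =>
      x.1.map (fun b => Nat.pair b.unpair.1 (m b.unpair.2 x.2)) := by
    have h3 : Computable fun y : (List ℕ × ℕ) × ℕ =>
        Nat.pair (y.1.1.getD y.2 0).unpair.1 (m (y.1.1.getD y.2 0).unpair.2 y.1.2) := by
      have h4 : Primrec fun y : (List ℕ × ℕ) × ℕ => (y.1.1.getD y.2 0).unpair :=
        Primrec.unpair.comp ((Primrec.list_getD 0).comp (Primrec.fst.comp Primrec.fst)
          Primrec.snd)
      exact Computable₂.comp (f := Nat.pair) Primrec₂.natPair.to_comp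
        (Primrec.fst.comp h4).to_comp
        (hm.comp (Primrec.snd.comp h4).to_comp (Primrec.snd.comp Primrec.fst).to_comp)
    have h5 : Computable fun x : List ℕ × ℕ => (Nat.rec [] (fun t (r : List ℕ) =>
        r ++ [Nat.pair (x.1.getD t 0).unpair.1 (m (x.1.getD t 0).unpair.2 x.2)])
          x.1.length : List ℕ) := by
      refine Computable.nat_rec (f := fun x : List ℕ × ℕ => x.1.length)
        (g := fun _ => ([] : List ℕ)) (h := fun (x : List ℕ × ℕ) (y : ℕ × List ℕ) =>
          y.2 ++ [Nat.pair (x.1.getD y.1 0).unpair.1 (m (x.1.getD y.1 0).unpair.2 x.2)])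
        (Computable.list_length.comp Computable.fst) (Computable.const []) ?_
      have h6 : Computable fun z : (List ℕ × ℕ) × (ℕ × List ℕ) =>
          Nat.pair (z.1.1.getD z.2.1 0).unpair.1 (m (z.1.1.getD z.2.1 0).unpair.2 z.1.2) :=
        h3.comp (g := fun z : (List ℕ × ℕ) × (ℕ × List ℕ) => ((z.1, z.2.1) : (List ℕ × ℕ) × ℕ))
          (Computable.fst.pair (Computable.fst.comp Computable.snd))
      exact Computable₂.comp (f := fun (a : List ℕ) (b : ℕ) => a ++ [b])
        Primrec.list_concat.to_comp (Computable.snd.comp Computable.snd) h6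
    refine h5.of_eq fun x => ?_
    rcases x with ⟨D, v⟩
    have key : ∀ t ≤ D.length, (Nat.rec [] (fun t (r : List ℕ) =>
        r ++ [Nat.pair (D.getD t 0).unpair.1 (m (D.getD t 0).unpair.2 v)]) t : List ℕ) =
          (D.take t).map (fun b => Nat.pair b.unpair.1 (m b.unpair.2 v)) := by
      intro t
      induction t with
      | zero => intro _; rfl
      | succ t ih =>
        intro ht
        have h7 := ih (by omega)
        show (Nat.rec [] (fun t (r : List ℕ) =>
          r ++ [Nat.pair (D.getD t 0).unpair.1 (m (D.getD t 0).unpair.2 v)]) t : List ℕ) ++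
            [Nat.pair (D.getD t 0).unpair.1 (m (D.getD t 0).unpair.2 v)] = _
        rw [h7, List.take_add_one, List.getElem?_eq_getElem (by omega),
          List.getD_eq_getElem _ _ (by omega), List.map_append]
        rfl
    have h8 := key D.length le_rfl
    rw [List.take_length] at h8
    exact h8
  have h9 : Computable fun x : ℕ × ℕ => (dk x.1.unpair.2).map
      (fun b => Nat.pair b.unpair.1 (m b.unpair.2 x.2.unpair.1)) :=
    h2.comp (g := fun x : ℕ × ℕ => ((dk x.1.unpair.2, x.2.unpair.1) : List ℕ × ℕ))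
      ((dk_prim.comp (Primrec.snd.comp hj)).pair (Primrec.fst.comp hk)).to_comp
  have h10 : Computable fun x : ℕ × ℕ => encode ((dk x.1.unpair.2).map
      (fun b => Nat.pair b.unpair.1 (m b.unpair.2 x.2.unpair.1)) ++ dk x.2.unpair.2) :=
    Computable.encode.comp (Computable₂.comp (f := fun a b : List ℕ => a ++ b)
      Primrec.list_append.to_comp h9 (dk_prim.comp (Primrec.snd.comp hk)).to_comp)
  exact Computable₂.comp (f := Nat.pair) Primrec₂.natPair.to_comp h1 h10

variable {c : ℕ → ℕ} {N : ℕ → ℕ → ℕ}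

theorem ec_comp (hc : Computable c) (hN : Computable₂ N) : Computable (ec c N) := by
  have h1 : Computable fun n => Nat.pair n (c n) :=
    Computable₂.comp (f := Nat.pair) Primrec₂.natPair.to_comp Computable.id hc
  have h2 : Computable fun n => N n (c n) := hN.comp Computable.id hc
  have h3 : Computable fun n => bl (Nat.pair n (c n)) (N n (c n)) :=
    Computable₂.comp (f := bl) bl_prim.to_comp h1 h2
  have h4 : Computable fun n => c n + bl (Nat.pair n (c n)) (N n (c n)) + 1 :=
    Computable₂.comp (f := fun a b : ℕ => a + b + 1)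
      (Primrec.succ.comp Primrec.nat_add).to_comp hc h3
  have h5 : Primrec fun a : ℕ => a ^ 2 :=
    (Primrec.nat_mul.comp Primrec.id Primrec.id).of_eq fun a => (sq a).symm
  exact h5.to_comp.comp h4

theorem eR_UD {R : ℕ → (ℕ → Bool) → ℕ → Prop} (hc : Computable c) (hN : Computable₂ N)
    (hR : UD fun B (x : ℕ × ℕ) => R x.1 B x.2) :
    UD fun B (x : ℕ × ℕ) => eR c R N x.1 B x.2 := by
  have hn : Computable fun x : ℕ × ℕ => x.1 := Computable.fst
  have hcn : Computable fun x : ℕ × ℕ => c x.1 := hc.comp hn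
  have hk : Primrec fun x : ℕ × ℕ => x.2.unpair := Primrec.unpair.comp Primrec.snd
  have hd : Primrec fun x : ℕ × ℕ => dk x.2.unpair.2 := dk_prim.comp (Primrec.snd.comp hk)
  have hlt : PrimrecPred fun x : ℕ × ℕ => x.1 < x.2 := Primrec.nat_lt.comp Primrec.fst Primrec.snd
  have hle : PrimrecPred fun x : ℕ × ℕ => x.1 ≤ x.2 := Primrec.nat_le.comp Primrec.fst Primrec.snd
  have hR' := UD.odd' hR
  refine UD.and (UD.and ?_ ?_) (UD.and ?_ ?_)
  · exact UD.of_comp hlt ((Primrec.fst.comp hk).to_comp.pair hcn)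
  · exact hR'.comp (f := fun x : ℕ × ℕ => (x.1, x.2.unpair.1))
      (Primrec.fst.pair (Primrec.fst.comp hk)).to_comp
  · exact UD.of_comp hle ((Primrec.list_length.comp hd).to_comp.pair
      (hN.comp hn hcn))
  · have hb : Primrec fun y : (ℕ × ℕ) × ℕ => ((dk y.1.2.unpair.2).getD y.2 0).unpair :=
      Primrec.unpair.comp ((Primrec.list_getD 0).comp (hd.comp Primrec.fst) Primrec.snd)
    have h1 : UD fun B (x : ℕ × ℕ) => ∀ t < (dk x.2.unpair.2).length,
        ((dk x.2.unpair.2).getD t 0).unpair.1 < x.1 ∧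
          ((dk x.2.unpair.2).getD t 0).unpair.2 < c x.1 ∧
            R x.1 (odd B) ((dk x.2.unpair.2).getD t 0).unpair.2 := by
      refine UD.all_lt (α := ℕ × ℕ) (p := fun B x t =>
        ((dk x.2.unpair.2).getD t 0).unpair.1 < x.1 ∧
          ((dk x.2.unpair.2).getD t 0).unpair.2 < c x.1 ∧
            R x.1 (odd B) ((dk x.2.unpair.2).getD t 0).unpair.2)
        (f := fun x => (dk x.2.unpair.2).length) (UD.and ?_ (UD.and ?_ ?_))
        (Primrec.list_length.comp hd).to_comp
      · exact UD.of_comp hlt ((Primrec.fst.comp hb).to_comp.pair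
          (Primrec.fst.comp Primrec.fst).to_comp)
      · exact UD.of_comp hlt ((Primrec.snd.comp hb).to_comp.pair
          (hcn.comp Computable.fst))
      · exact hR'.comp (f := fun y : (ℕ × ℕ) × ℕ =>
          (y.1.1, ((dk y.1.2.unpair.2).getD y.2 0).unpair.2))
          ((Primrec.fst.comp Primrec.fst).pair (Primrec.snd.comp hb)).to_comp
    refine h1.of_eq fun B x => ?_
    unfold Ok
    constructor
    · intro h b hb'
      obtain ⟨t, ht, rfl⟩ := List.getElem_of_mem hb'
      have := h t ht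
      rwa [List.getD_eq_getElem _ _ ht] at this
    · intro h t ht
      rw [List.getD_eq_getElem _ _ ht]
      exact h _ (List.getElem_mem ht)

end eff

end Pool.Agent.V7H75.TX
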