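import Pool.Agent.V7H75.TX.Tower

set_option autoImplicit false

/-!
The extension of an effective system of finite lists by a map of a further part of the oracle, the
inverse branches of which depend on the given part.
-/

namespace Pool.Agent.V7H75.TX

open Encodable Pool.Agent.Helper227
open Pool.Agent.V7H75.HF (Cl UD U1 evn odd evn_join odd_join rd rd_join cd cd_encode)
open Pool.Agent.V7H67.IB (Sys dk dk_encode dk_zero dk_prim bl bl_mono bl_prim encode_le_bl
  Fst Fst_UD exists_Fst uc ob gK gK_prim sh sh_sh sh_ob K_sh link)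

/-- the points which are reached from the forward orbit of `X` by at most so many of the maps in
`B` that they are not further than `gK n` from the first cut -/
def BL (T : (ℕ → Bool) → ℕ → Bool) (B : Set ((ℕ → Bool) → ℕ → Bool)) (n : ℕ) (X : ℕ → Bool) :
    Set (ℕ → Bool) :=
  {Y | ∃ (a : ℕ) (w : List ((ℕ → Bool) → ℕ → Bool)) (i : ℕ), Fst (ob T X) n a ∧
    (∀ φ ∈ w, φ ∈ B) ∧ w.length + (a - i) ≤ gK n ∧ i ≤ a + gK n + 1 ∧
      Y = w.foldr (fun φ r => φ r) (T^[i] X)}

theorem BL_self (T : (ℕ → Bool) → ℕ → Bool) (B : Set ((ℕ → Bool) → ℕ → Bool)) (n : ℕ)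
    (X : ℕ → Bool) : X ∈ BL T B n X := by
  obtain ⟨a, h1, h2⟩ := exists_Fst (ob T X) n
  exact ⟨a, [], 0, h1, by simp, by simpa using h2, by omega, rfl⟩

theorem mem_BL {T : (ℕ → Bool) → ℕ → Bool} {B : Set ((ℕ → Bool) → ℕ → Bool)} {n : ℕ}
    {X Y : ℕ → Bool} {a : ℕ} (ha : Fst (ob T X) n a) : Y ∈ BL T B n X ↔
      ∃ (w : List ((ℕ → Bool) → ℕ → Bool)) (i : ℕ), (∀ φ ∈ w, φ ∈ B) ∧
        w.length + (a - i) ≤ gK n ∧ i ≤ a + gK n + 1 ∧
          Y = w.foldr (fun φ r => φ r) (T^[i] X) := by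
  constructor
  · rintro ⟨b, w, i, h1, h2⟩
    obtain rfl := ha.uniq h1
    exact ⟨w, i, h2⟩
  · rintro ⟨w, i, h2⟩
    exact ⟨a, w, i, ha, h2⟩

/-- the lists of `X` and `T X` are finally the same, if one of the maps is an inverse at `X` -/
theorem BL_eq (T : (ℕ → Bool) → ℕ → Bool) (X : ℕ → Bool) : ∃ N, ∀ n ≥ N,
    ∀ B : Set ((ℕ → Bool) → ℕ → Bool), (∃ φ ∈ B, φ (T X) = X) → BL T B n X = BL T B n (T X) := by
  obtain ⟨N, hN⟩ := link (ob T X)
  refine ⟨N, fun n hnN B hB => ?_⟩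
  obtain ⟨φ, hφ, h⟩ := hB
  have hsh : sh (ob T X) 1 = ob T (T X) := sh_ob _ _ _
  obtain ⟨a, ha, ha'⟩ := exists_Fst (ob T X) n
  obtain ⟨b, hb, hb'⟩ := exists_Fst (ob T (T X)) n
  have hlink := hN n hnN a b ha (by rwa [hsh])
  ext Y
  rw [mem_BL ha, mem_BL hb]
  rcases Nat.eq_zero_or_pos a with h0 | h1
  · subst h0
    have hX : X = T^[b + 1] X := by
      have h2 := congrFun hlink 0
      rw [sh_sh] at h2
      unfold sh ob at h2
      rw [Nat.add_zero, Function.iterate_zero_apply, Nat.add_zero, Nat.add_comm] at h2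
      exact h2
    constructor
    · rintro ⟨w, i, h3, h4, h5, rfl⟩
      refine ⟨w, i + b, h3, by omega, by omega, ?_⟩
      conv_lhs => rw [hX]
      rw [← Function.iterate_add_apply, ← Function.iterate_succ_apply]
      congr 2
    · rintro ⟨w, i, h3, h4, h5, rfl⟩
      have hper : ∀ q, T^[(b + 1) * q] X = X := by
        intro q
        induction q with
        | zero => rfl
        | succ q ih => rw [Nat.mul_succ, Function.iterate_add_apply, ← hX, ih]
      have hmod : (i + 1) % (b + 1) < b + 1 := Nat.mod_lt _ (Nat.succ_pos b)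
      refine ⟨w, (i + 1) % (b + 1), h3, by omega, by omega, ?_⟩
      rw [← Function.iterate_succ_apply]
      congr 1
      change T^[i + 1] X = _
      conv_lhs => rw [← Nat.mod_add_div (i + 1) (b + 1), Function.iterate_add_apply, hper]
  · have hb1 : b = a - 1 := by
      have h2 : Fst (ob T (T X)) n (a - 1) := by
        rw [← hsh]
        refine ⟨?_, fun j hj => ?_⟩
        · rw [K_sh, show 1 + (a - 1) = a by omega]
          exact ha.1
        · rw [K_sh]
          exact ha.2 (1 + j) (by omega)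
      exact hb.uniq h2
    subst hb1
    constructor
    · rintro ⟨w, i, h3, h4, h5, rfl⟩
      rcases Nat.eq_zero_or_pos i with h0 | h6
      · subst h0
        refine ⟨w ++ [φ], 0, ?_, ?_, by omega, ?_⟩
        · intro b hb
          rcases List.mem_append.1 hb with h7 | h7
          · exact h3 b h7
          · rw [List.mem_singleton.1 h7]
            exact hφ
        · rw [List.length_append, List.length_singleton]
          omega
        · rw [List.foldr_append, Function.iterate_zero_apply, Function.iterate_zero_apply]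
          congr 1
          exact h.symm
      · refine ⟨w, i - 1, h3, by omega, by omega, ?_⟩
        rw [← Function.iterate_succ_apply, show (i - 1).succ = i by omega]
    · rintro ⟨w, i, h3, h4, h5, rfl⟩
      refine ⟨w, i + 1, h3, by omega, by omega, ?_⟩
      rw [Function.iterate_succ_apply]

/-- the letters: `0` stands for `T`, and `l + 1` for `S l` -/
def fa (T : (ℕ → Bool) → ℕ → Bool) (S : ℕ → (ℕ → Bool) → ℕ → Bool) : ℕ → (ℕ → Bool) → ℕ → Bool
  | 0 => fun X => T (evn X)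
  | l + 1 => S l

/-- the word `D` consists of `i` letters `0` at the end and of letters from `1` to `n` with
parameters in the list -/
def fOk (c : ℕ → ℕ) (R : ℕ → (ℕ → Bool) → ℕ → Prop) (n a : ℕ) (Z : ℕ → Bool) (D : List ℕ) : Prop :=
  ∃ i < a + gK n + 2, i ≤ D.length ∧ ((D.length - i) + (a - i) ≤ gK n ∧
    ∀ t < D.length, (t < D.length - i → (1 ≤ (D.getD t 0).unpair.1 ∧ (D.getD t 0).unpair.1 ≤ n) ∧
      (D.getD t 0).unpair.2 < c n ∧ R n Z (D.getD t 0).unpair.2) ∧
        (D.length - i ≤ t → D.getD t 0 = 0))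

/-- the indices of the members of the list -/
def fR (T : (ℕ → Bool) → ℕ → Bool) (c : ℕ → ℕ) (R : ℕ → (ℕ → Bool) → ℕ → Prop) (n : ℕ)
    (X : ℕ → Bool) (k : ℕ) : Prop :=
  (k.unpair.1 < c n ∧ R n (odd X) k.unpair.1) ∧ ∃ a < gK n + 1, Fst (ob T (evn X)) n a ∧
    fOk c R n a (odd X) (dk k.unpair.2)

/-- the bounds -/
def fN (n _ : ℕ) : ℕ := 3 * gK n + 1

/-- the maps which go back at level `n` -/
def fB (S : ℕ → (ℕ → Bool) → ℕ → Bool) (n : ℕ) (P : Set (ℕ → Bool)) :
    Set ((ℕ → Bool) → ℕ → Bool) :=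
  {φ | ∃ l < n, ∃ p ∈ P, φ = fun r => S l (join r p)}

section lists

variable {T : (ℕ → Bool) → ℕ → Bool} {S U : ℕ → (ℕ → Bool) → ℕ → Bool} {c : ℕ → ℕ}
  {R : ℕ → (ℕ → Bool) → ℕ → Prop}

theorem fOk_iff {n a : ℕ} {Z : ℕ → Bool} {D : List ℕ} : fOk c R n a Z D ↔
    ∃ (w : List ℕ) (i : ℕ), (∀ b ∈ w, (1 ≤ b.unpair.1 ∧ b.unpair.1 ≤ n) ∧ b.unpair.2 < c n ∧
      R n Z b.unpair.2) ∧ w.length + (a - i) ≤ gK n ∧ i ≤ a + gK n + 1 ∧
        D = w ++ List.replicate i 0 := by
  constructor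
  · rintro ⟨i, h1, h2, h3, h4⟩
    refine ⟨D.take (D.length - i), i, ?_, ?_, by omega, ?_⟩
    · intro b hb
      obtain ⟨t, ht, rfl⟩ := List.getElem_of_mem hb
      rw [List.length_take] at ht
      have h5 := (h4 t (by omega)).1 (by omega)
      rw [List.getD_eq_getElem _ _ (by omega)] at h5
      rwa [List.getElem_take]
    · rw [List.length_take]
      omega
    · conv_lhs => rw [← List.take_append_drop (D.length - i) D]
      congr 1
      rw [List.eq_replicate_iff]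
      refine ⟨by rw [List.length_drop]; omega, fun b hb => ?_⟩
      obtain ⟨t, ht, rfl⟩ := List.getElem_of_mem hb
      rw [List.length_drop] at ht
      have h5 := (h4 (D.length - i + t) (by omega)).2 (by omega)
      rw [List.getD_eq_getElem _ _ (by omega)] at h5
      rwa [List.getElem_drop]
  · rintro ⟨w, i, h1, h2, h3, rfl⟩
    have hlen : (w ++ List.replicate i 0).length = w.length + i := by simp
    refine ⟨i, by omega, by omega, by omega, fun t ht => ⟨fun h4 => ?_, fun h4 => ?_⟩⟩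
    · have h5 : t < w.length := by omega
      rw [List.getD_append _ _ _ _ h5, List.getD_eq_getElem _ _ h5]
      exact h1 _ (List.getElem_mem h5)
    · rw [List.getD_append_right _ _ _ _ (by omega), List.getD_eq_getElem _ _ (by simp; omega),
        List.getElem_replicate]

theorem ap_replicate (i : ℕ) (Z A : ℕ → Bool) :
    ap (fa T S) U (List.replicate i 0) Z A = T^[i] A := by
  have h0 : Nat.unpair 0 = (0, 0) := by
    rw [← Nat.unpair_pair 0 0]
    rfl
  induction i with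
  | zero => rfl
  | succ i ih =>
    rw [List.replicate_succ, Function.iterate_succ_apply', ← ih, ap_cons, h0]
    show T (evn _) = _
    rw [evn_join]

theorem ap_back {n : ℕ} {Z A : ℕ → Bool} {w : List ℕ}
    (h : ∀ b ∈ w, (1 ≤ b.unpair.1 ∧ b.unpair.1 ≤ n) ∧ b.unpair.2 < c n ∧ R n Z b.unpair.2) :
    ∃ v : List ((ℕ → Bool) → ℕ → Bool), v.length = w.length ∧
      (∀ φ ∈ v, φ ∈ fB S n (Cl c U R n Z)) ∧
        ap (fa T S) U w Z A = v.foldr (fun φ r => φ r) A := by
  induction w with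
  | nil => exact ⟨[], rfl, by simp, rfl⟩
  | cons b w ih =>
    obtain ⟨v, h1, h2, h3⟩ := ih fun b' hb' => h b' (List.mem_cons_of_mem _ hb')
    obtain ⟨⟨h4, h5⟩, h6, h7⟩ := h b List.mem_cons_self
    obtain ⟨l, hl⟩ : ∃ l, b.unpair.1 = l + 1 := ⟨b.unpair.1 - 1, by omega⟩
    refine ⟨(fun r => S l (join r (U b.unpair.2 Z))) :: v, by simp [h1], ?_, ?_⟩
    · intro φ hφ
      rcases List.mem_cons.1 hφ with h8 | h8
      · exact ⟨l, by omega, _, ⟨_, h6, h7, rfl⟩, h8⟩
      · exact h2 φ h8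
    · rw [ap_cons, h3, hl]
      rfl

theorem back_ap {n : ℕ} {Z A : ℕ → Bool} {v : List ((ℕ → Bool) → ℕ → Bool)}
    (h : ∀ φ ∈ v, φ ∈ fB S n (Cl c U R n Z)) : ∃ w : List ℕ, w.length = v.length ∧
      (∀ b ∈ w, (1 ≤ b.unpair.1 ∧ b.unpair.1 ≤ n) ∧ b.unpair.2 < c n ∧ R n Z b.unpair.2) ∧
        v.foldr (fun φ r => φ r) A = ap (fa T S) U w Z A := by
  induction v with
  | nil => exact ⟨[], rfl, by simp, rfl⟩
  | cons φ v ih =>
    obtain ⟨w, h1, h2, h3⟩ := ih fun φ' hφ' => h φ' (List.mem_cons_of_mem _ hφ')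
    obtain ⟨l, hl, p, ⟨u, hu, hu', rfl⟩, rfl⟩ := h φ List.mem_cons_self
    refine ⟨Nat.pair (l + 1) u :: w, by simp [h1], ?_, ?_⟩
    · intro b hb
      rcases List.mem_cons.1 hb with h4 | h4
      · rw [h4, Nat.unpair_pair]
        exact ⟨⟨by omega, by omega⟩, hu, hu'⟩
      · exact h2 b h4
    · rw [ap_cons, Nat.unpair_pair, List.foldr_cons, h3]
      rfl

theorem mem_fCl {n : ℕ} {X Y : ℕ → Bool} :
    Y ∈ Cl (ec c fN) (eT (fa T S) U) (fR T c R) n X ↔
      odd Y ∈ Cl c U R n (odd X) ∧ evn Y ∈ BL T (fB S n (Cl c U R n (odd X))) n (evn X) := by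
  constructor
  · rintro ⟨k, -, ⟨⟨h1, h2⟩, a, -, h3, h4⟩, rfl⟩
    unfold eT
    rw [odd_join, evn_join]
    refine ⟨⟨_, h1, h2, rfl⟩, ?_⟩
    obtain ⟨w, i, h5, h6, h7, h8⟩ := fOk_iff.1 h4
    obtain ⟨v, h9, h10, h11⟩ := ap_back (S := S) (T := T) (U := U) (A := T^[i] (evn X)) h5
    refine ⟨a, v, i, h3, h10, by omega, h7, ?_⟩
    rw [h8, ap_append, ap_replicate, h11]
  · rintro ⟨⟨v, h1, h2, h3⟩, a, w', i, h4, h5, h6, h7, h8⟩
    obtain ⟨w, h9, h10, h11⟩ := back_ap (T := T) (A := T^[i] (evn X)) h5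
    have ha : a ≤ gK n := by
      obtain ⟨b, h12, h13⟩ := exists_Fst (ob T (evn X)) n
      rwa [h4.uniq h12]
    have hlen : (w ++ List.replicate i 0).length = w.length + i := by simp
    have hb : encode (w ++ List.replicate i 0) ≤ bl (Nat.pair n (c n)) (fN n (c n)) := by
      refine (encode_le_bl (Nat.pair n (c n)) _ fun b hb => ?_).trans (bl_mono _ ?_)
      · rcases List.mem_append.1 hb with h12 | h12
        · have h13 := h10 b h12
          rw [← Nat.pair_unpair b]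
          exact pair_mono h13.1.2 h13.2.1.le
        · rw [List.eq_of_mem_replicate h12]
          exact Nat.zero_le _
      · unfold fN
        omega
    refine ⟨Nat.pair v (encode (w ++ List.replicate i 0)), ?_, ⟨⟨?_, ?_⟩, a, by omega, h4, ?_⟩, ?_⟩
    · have h8 := Nat.pair_lt_max_add_one_sq v (encode (w ++ List.replicate i 0))
      have h9 : max v (encode (w ++ List.replicate i 0)) + 1 ≤
          c n + bl (Nat.pair n (c n)) (fN n (c n)) + 1 := by omega
      exact h8.trans_le (Nat.pow_le_pow_left h9 2)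
    · rw [Nat.unpair_pair]
      exact h1
    · rw [Nat.unpair_pair]
      exact h2
    · rw [Nat.unpair_pair, dk_encode]
      exact fOk_iff.2 ⟨w, i, h10, by omega, h7, rfl⟩
    · unfold eT
      rw [Nat.unpair_pair, dk_encode, ap_append, ap_replicate, ← h11, ← h8, ← h3, jn_evn_odd]

theorem fsys {m : ℕ → ℕ → ℕ} (h : Sys m c U R) :
    Sys (em m) (ec c fN) (eT (fa T S) U) (fR T c R) where
  comp j k X := by
    unfold eT em
    rw [odd_join, evn_join, Nat.unpair_pair, dk_encode, h.comp]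
    congr 1
    rw [ap_append]
    generalize dk j.unpair.2 = D
    generalize ap (fa T S) U (dk k.unpair.2) (odd X) (evn X) = B
    induction D with
    | nil => rfl
    | cons b D ih =>
      rw [List.map_cons, ap_cons, ap_cons, ih, h.comp, Nat.unpair_pair]
  one X := by
    unfold eT
    have h1 : Nat.unpair 0 = (0, 0) := by
      rw [← Nat.unpair_pair 0 0]
      rfl
    rw [h1]
    dsimp only
    rw [dk_zero, h.one]
    exact jn_evn_odd X
  self n X := mem_fCl.2 ⟨h.self n _, BL_self _ _ _ _⟩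

/-- a move of the given part -/
theorem f_link1 {X Y : ℕ → Bool} (h1 : evn Y = evn X)
    (h2 : ∃ N, ∀ n ≥ N, Cl c U R n (odd X) = Cl c U R n (odd Y)) :
    ∃ N, ∀ n ≥ N, Cl (ec c fN) (eT (fa T S) U) (fR T c R) n X =
      Cl (ec c fN) (eT (fa T S) U) (fR T c R) n Y := by
  obtain ⟨N, hN⟩ := h2
  refine ⟨N, fun n hn => ?_⟩
  ext B
  rw [mem_fCl, mem_fCl, hN n hn, h1]

/-- a move of the further part -/
theorem f_link2 {m : ℕ → ℕ → ℕ} (h : Sys m c U R) {X Y : ℕ → Bool} {l : ℕ}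
    (h1 : odd Y = odd X) (h2 : evn Y = T (evn X)) (h3 : S l Y = evn X) :
    ∃ N, ∀ n ≥ N, Cl (ec c fN) (eT (fa T S) U) (fR T c R) n X =
      Cl (ec c fN) (eT (fa T S) U) (fR T c R) n Y := by
  obtain ⟨N, hN⟩ := BL_eq T (evn X)
  refine ⟨max N (l + 1), fun n hn => ?_⟩
  have h4 := hN n ((le_max_left _ _).trans hn) (fB S n (Cl c U R n (odd X)))
    ⟨fun r => S l (join r (odd X)), ⟨l, (le_max_right _ _).trans hn, odd X, h.self n _, rfl⟩, by
      show S l (join (T (evn X)) (odd X)) = evn X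
      rw [← h2, ← h1, jn_evn_odd, h3]⟩
  ext B
  rw [mem_fCl, mem_fCl, h1, h2, h4]

end lists

/-! ### computability -/

section eff

variable {T : (ℕ → Bool) → ℕ → Bool} {S : ℕ → (ℕ → Bool) → ℕ → Bool}

theorem fa_UD (hT : UD fun B (n : ℕ) => T B n = true)
    (hS : UD fun B (x : ℕ × ℕ) => S x.1 B x.2 = true) :
    UD fun B (x : ℕ × ℕ) => fa T S x.1 B x.2 = true := by
  have h0 : UD fun (_ : ℕ → Bool) (x : ℕ × ℕ) => x.1 = 0 :=
    UD.of_prim (Primrec.eq.comp Primrec.fst (Primrec.const 0))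
  have h1 : UD fun B (x : ℕ × ℕ) => (x.1 = 0 ∧ T (evn B) x.2 = true) ∨
      (¬ x.1 = 0 ∧ S (x.1 - 1) B x.2 = true) := by
    refine UD.or (UD.and h0 ((UD.evn hT).comp Computable.snd)) (UD.and h0.not ?_)
    exact hS.comp (f := fun x : ℕ × ℕ => (x.1 - 1, x.2))
      ((Primrec.nat_sub.comp Primrec.fst (Primrec.const 1)).pair Primrec.snd).to_comp
  refine h1.of_eq fun B x => ?_
  rcases x with ⟨_ | l, y⟩ <;> simp [fa]

theorem fN_comp : Computable₂ fN :=
  (Primrec.succ.comp (Primrec.nat_mul.comp (Primrec.const 3) (gK_prim.comp Primrec.fst)) :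
    Primrec fun x : ℕ × ℕ => fN x.1 x.2).to_comp

theorem ob_UD (hT : UD fun B (n : ℕ) => T B n = true) :
    UD fun B (x : ℕ × ℕ) => Fst (ob T B) x.1 x.2 := by
  have h1 : UD fun B (x : Unit × ℕ) => T^[x.2.unpair.1] B x.2.unpair.2 = true :=
    (Pool.Agent.V7H75.HF.iterate_UD hT).comp (f := fun x : Unit × ℕ => x.2.unpair)
      (Primrec.unpair.comp Primrec.snd).to_comp
  have h2 : UD fun B (x : Unit × (ℕ × ℕ)) =>
      Fst (uc fun k => T^[k.unpair.1] B k.unpair.2) x.2.1 x.2.2 :=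
    UD.sub (F := fun B (_ : Unit) => fun k => T^[k.unpair.1] B k.unpair.2) h1 Fst_UD
  refine (h2.comp (f := fun x : ℕ × ℕ => ((), x))
    ((Computable.const ()).pair Computable.id)).of_eq fun B x => ?_
  have h4 : (uc fun k => T^[k.unpair.1] B k.unpair.2) = ob T B := by
    funext i q
    simp [uc, ob]
  rw [h4]

theorem fR_UD {c : ℕ → ℕ} {R : ℕ → (ℕ → Bool) → ℕ → Prop}
    (hT : UD fun B (n : ℕ) => T B n = true) (hc : Computable c)
    (hR : UD fun B (x : ℕ × ℕ) => R x.1 B x.2) :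
    UD fun B (x : ℕ × ℕ) => fR T c R x.1 B x.2 := by
  have hk : Primrec fun x : ℕ × ℕ => x.2.unpair := Primrec.unpair.comp Primrec.snd
  have hd : Primrec fun x : ℕ × ℕ => dk x.2.unpair.2 := dk_prim.comp (Primrec.snd.comp hk)
  have hlt : PrimrecPred fun x : ℕ × ℕ => x.1 < x.2 := Primrec.nat_lt.comp Primrec.fst Primrec.snd
  have hR' := UD.odd' hR
  refine UD.and (UD.and ?_ ?_) ?_
  · exact UD.of_comp hlt ((Primrec.fst.comp hk).to_comp.pair (hc.comp Computable.fst))
  · exact hR'.comp (f := fun x : ℕ × ℕ => (x.1, x.2.unpair.1))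
      (Primrec.fst.pair (Primrec.fst.comp hk)).to_comp
  refine UD.ex_lt (α := ℕ × ℕ) (p := fun B x a => Fst (ob T (evn B)) x.1 a ∧
    fOk c R x.1 a (odd B) (dk x.2.unpair.2)) (f := fun x => gK x.1 + 1) (UD.and ?_ ?_)
    (Primrec.succ.comp (gK_prim.comp Primrec.fst)).to_comp
  · exact (UD.evn (ob_UD hT)).comp (f := fun y : (ℕ × ℕ) × ℕ => (y.1.1, y.2))
      ((Primrec.fst.comp Primrec.fst).pair Primrec.snd).to_comp
  have hn : Primrec fun y : (ℕ × ℕ) × ℕ => y.1.1 := Primrec.fst.comp Primrec.fst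
  have ha : Primrec fun y : (ℕ × ℕ) × ℕ => y.2 := Primrec.snd
  have hD : Primrec fun y : (ℕ × ℕ) × ℕ => dk y.1.2.unpair.2 := hd.comp Primrec.fst
  have hl : Primrec fun y : (ℕ × ℕ) × ℕ => (dk y.1.2.unpair.2).length :=
    Primrec.list_length.comp hD
  have hg : Primrec fun y : (ℕ × ℕ) × ℕ => gK y.1.1 := gK_prim.comp hn
  refine UD.ex_lt (α := (ℕ × ℕ) × ℕ) (p := fun B y i => i ≤ (dk y.1.2.unpair.2).length ∧
    (((dk y.1.2.unpair.2).length - i) + (y.2 - i) ≤ gK y.1.1 ∧
      ∀ t < (dk y.1.2.unpair.2).length, (t < (dk y.1.2.unpair.2).length - i →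
        (1 ≤ ((dk y.1.2.unpair.2).getD t 0).unpair.1 ∧
          ((dk y.1.2.unpair.2).getD t 0).unpair.1 ≤ y.1.1) ∧
            ((dk y.1.2.unpair.2).getD t 0).unpair.2 < c y.1.1 ∧
              R y.1.1 (odd B) ((dk y.1.2.unpair.2).getD t 0).unpair.2) ∧
        ((dk y.1.2.unpair.2).length - i ≤ t → (dk y.1.2.unpair.2).getD t 0 = 0)))
    (f := fun y => y.2 + gK y.1.1 + 2) (UD.and ?_ (UD.and ?_ ?_))
    (Primrec.nat_add.comp (Primrec.nat_add.comp ha hg) (Primrec.const 2)).to_comp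
  · exact UD.of_prim (Primrec.nat_le.comp Primrec.snd (hl.comp Primrec.fst))
  · exact UD.of_prim (Primrec.nat_le.comp (Primrec.nat_add.comp
      (Primrec.nat_sub.comp (hl.comp Primrec.fst) Primrec.snd)
      (Primrec.nat_sub.comp (ha.comp Primrec.fst) Primrec.snd)) (hg.comp Primrec.fst))
  · refine UD.all_lt (α := ((ℕ × ℕ) × ℕ) × ℕ) (p := fun B z t =>
      (t < (dk z.1.1.2.unpair.2).length - z.2 →
        (1 ≤ ((dk z.1.1.2.unpair.2).getD t 0).unpair.1 ∧
          ((dk z.1.1.2.unpair.2).getD t 0).unpair.1 ≤ z.1.1.1) ∧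
            ((dk z.1.1.2.unpair.2).getD t 0).unpair.2 < c z.1.1.1 ∧
              R z.1.1.1 (odd B) ((dk z.1.1.2.unpair.2).getD t 0).unpair.2) ∧
        ((dk z.1.1.2.unpair.2).length - z.2 ≤ t → (dk z.1.1.2.unpair.2).getD t 0 = 0))
      (f := fun z => (dk z.1.1.2.unpair.2).length) ?_ (hl.comp Primrec.fst).to_comp
    have hb : Primrec fun z : (((ℕ × ℕ) × ℕ) × ℕ) × ℕ => (dk z.1.1.1.2.unpair.2).getD z.2 0 :=
      (Primrec.list_getD 0).comp (hD.comp (Primrec.fst.comp Primrec.fst)) Primrec.snd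
    have hb1 : Primrec fun z : (((ℕ × ℕ) × ℕ) × ℕ) × ℕ =>
        ((dk z.1.1.1.2.unpair.2).getD z.2 0).unpair := Primrec.unpair.comp hb
    have hli : Primrec fun z : (((ℕ × ℕ) × ℕ) × ℕ) × ℕ =>
        (dk z.1.1.1.2.unpair.2).length - z.1.2 :=
      Primrec.nat_sub.comp (hl.comp (Primrec.fst.comp Primrec.fst))
        (Primrec.snd.comp Primrec.fst)
    have hn' : Primrec fun z : (((ℕ × ℕ) × ℕ) × ℕ) × ℕ => z.1.1.1.1 :=
      hn.comp (Primrec.fst.comp Primrec.fst)
    refine UD.and (UD.imp ?_ (UD.and (UD.and ?_ ?_) (UD.and ?_ ?_))) (UD.imp ?_ ?_)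
    · exact UD.of_prim (Primrec.nat_lt.comp Primrec.snd hli)
    · exact UD.of_prim (Primrec.nat_le.comp (Primrec.const 1) (Primrec.fst.comp hb1))
    · exact UD.of_prim (Primrec.nat_le.comp (Primrec.fst.comp hb1) hn')
    · exact UD.of_comp hlt ((Primrec.snd.comp hb1).to_comp.pair (hc.comp hn'.to_comp))
    · exact hR'.comp (f := fun z : (((ℕ × ℕ) × ℕ) × ℕ) × ℕ =>
        (z.1.1.1.1, ((dk z.1.1.1.2.unpair.2).getD z.2 0).unpair.2))
        (hn'.pair (Primrec.snd.comp hb1)).to_comp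
    · exact UD.of_prim (Primrec.nat_le.comp hli Primrec.snd)
    · exact UD.of_prim (Primrec.eq.comp hb (Primrec.const 0))

end eff

end Pool.Agent.V7H75.TX
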