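import Pool.Agent.V7H75.TX.Fwd

set_option autoImplicit false

/-!
Finite parts of a computable partial order, sorted.
-/

namespace Pool.Agent.V7H75.TX

open Encodable Pool.Agent.Helper227

/-- `n` is put before the first element above it -/
def ins (O : ℕ → ℕ → Bool) (n : ℕ) : List ℕ → List ℕ
  | [] => [n]
  | d :: L => if O n d = true then n :: d :: L else d :: ins O n L

/-- the numbers below `n`, sorted -/
def srt (O : ℕ → ℕ → Bool) : ℕ → List ℕ
  | 0 => []
  | n + 1 => ins O n (srt O n)

variable {O : ℕ → ℕ → Bool}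

theorem mem_ins {n c : ℕ} {L : List ℕ} : c ∈ ins O n L ↔ c = n ∨ c ∈ L := by
  induction L with
  | nil => simp [ins]
  | cons d L ih =>
    unfold ins
    split_ifs with h
    · simp
    · rw [List.mem_cons, ih, List.mem_cons]
      tauto

theorem length_ins (n : ℕ) (L : List ℕ) : (ins O n L).length = L.length + 1 := by
  induction L with
  | nil => rfl
  | cons d L ih =>
    unfold ins
    split_ifs with h
    · rfl
    · rw [List.length_cons, ih, List.length_cons]

theorem mem_srt {n c : ℕ} : c ∈ srt O n ↔ c < n := by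
  induction n with
  | zero => simp [srt]
  | succ n ih =>
    rw [srt, mem_ins, ih]
    omega

theorem length_srt (n : ℕ) : (srt O n).length = n := by
  induction n with
  | zero => rfl
  | succ n ih => rw [srt, length_ins, ih]

/-- different members, and no later member is below an earlier one -/
def Gd (O : ℕ → ℕ → Bool) (L : List ℕ) : Prop := L.Pairwise fun c d => c ≠ d ∧ O d c = false

theorem ins_gd (ht : ∀ a b c, O a b = true → O b c = true → O a c = true) {n : ℕ} {L : List ℕ}
    (hn : n ∉ L) (h : Gd O L) (hs : ∀ d ∈ L, O n d = true → O d n = false) :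
    Gd O (ins O n L) := by
  induction L with
  | nil => simp [ins, Gd]
  | cons d L ih =>
    unfold Gd at h
    rw [List.pairwise_cons] at h
    rw [List.mem_cons, not_or] at hn
    unfold ins
    split_ifs with h1
    · unfold Gd
      rw [List.pairwise_cons, List.pairwise_cons]
      refine ⟨fun c hc => ?_, h⟩
      rcases List.mem_cons.1 hc with h2 | h2
      · rw [h2]
        exact ⟨hn.1, hs d List.mem_cons_self h1⟩
      · refine ⟨fun h3 => hn.2 (h3 ▸ h2), ?_⟩
        rw [← Bool.not_eq_true]
        intro h3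
        have h4 := ht _ _ _ h3 h1
        rw [(h.1 c h2).2] at h4
        exact Bool.false_ne_true h4
    · unfold Gd
      rw [List.pairwise_cons]
      refine ⟨fun c hc => ?_, ih hn.2 h.2 fun c hc => hs c (List.mem_cons_of_mem _ hc)⟩
      rcases mem_ins.1 hc with h2 | h2
      · rw [h2]
        exact ⟨fun h3 => hn.1 h3.symm, by rw [← Bool.not_eq_true]; exact h1⟩
      · exact h.1 c h2

theorem srt_gd (hi : ∀ a, O a a = false) (ht : ∀ a b c, O a b = true → O b c = true → O a c = true)
    (n : ℕ) : Gd O (srt O n) := by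
  induction n with
  | zero => exact List.Pairwise.nil
  | succ n ih =>
    refine ins_gd ht (by rw [mem_srt]; omega) ih fun d _ h => ?_
    rw [← Bool.not_eq_true]
    intro h1
    have h2 := ht _ _ _ h h1
    rw [hi] at h2
    exact Bool.false_ne_true h2

/-- the member with the number `i` -/
def sg (O : ℕ → ℕ → Bool) (n i : ℕ) : ℕ := (srt O n).getD i 0

theorem sg_eq {n i : ℕ} (h : i < n) : sg O n i = (srt O n)[i]'(by rwa [length_srt]) := by
  unfold sg
  rw [List.getD_eq_getElem]

theorem sg_lt {n i : ℕ} (h : i < n) : sg O n i < n := by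
  rw [sg_eq h, ← mem_srt (O := O)]
  exact List.getElem_mem _

theorem exists_sg {n c : ℕ} (h : c < n) : ∃ i < n, sg O n i = c := by
  have h1 : c ∈ srt O n := mem_srt.2 h
  obtain ⟨i, hi, h2⟩ := List.getElem_of_mem h1
  rw [length_srt] at hi
  exact ⟨i, hi, by rw [sg_eq hi, h2]⟩

theorem sg_order (hi : ∀ a, O a a = false)
    (ht : ∀ a b c, O a b = true → O b c = true → O a c = true) {n i t : ℕ} (h1 : i < n)
    (h2 : t < n) (h : O (sg O n i) (sg O n t) = true) : i < t := by
  by_contra h3
  rcases Nat.lt_or_eq_of_le (Nat.not_lt.1 h3) with h4 | h4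
  · have h5 := (List.pairwise_iff_getElem.1 (srt_gd hi ht n)) t i (by rwa [length_srt])
      (by rwa [length_srt]) h4
    rw [sg_eq h1, sg_eq h2, h5.2] at h
    exact Bool.false_ne_true h
  · rw [h4, hi] at h
    exact Bool.false_ne_true h

theorem sg_inj (hi : ∀ a, O a a = false)
    (ht : ∀ a b c, O a b = true → O b c = true → O a c = true) {n i t : ℕ} (h1 : i < n)
    (h2 : t < n) (h : sg O n i = sg O n t) : i = t := by
  rw [sg_eq h1, sg_eq h2] at h
  rcases lt_trichotomy i t with h4 | h4 | h4
  · exact absurd h ((List.pairwise_iff_getElem.1 (srt_gd hi ht n)) i t (by rwa [length_srt])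
      (by rwa [length_srt]) h4).1
  · exact h4
  · exact absurd h.symm ((List.pairwise_iff_getElem.1 (srt_gd hi ht n)) t i
      (by rwa [length_srt]) (by rwa [length_srt]) h4).1

/-! ### computability -/

/-- the number of members before the first one above `n` -/
def ps (O : ℕ → ℕ → Bool) (n : ℕ) (L : List ℕ) : ℕ → ℕ
  | 0 => 0
  | t + 1 => cond (decide (ps O n L t = t) && !(O n (L.getD t 0))) (t + 1) (ps O n L t)

theorem ps_le (n : ℕ) (L : List ℕ) (t : ℕ) : ps O n L t ≤ t := by
  induction t with
  | zero => exact le_rfl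
  | succ t ih =>
    unfold ps
    cases decide (ps O n L t = t) && !(O n (L.getD t 0)) with
    | false => exact ih.trans (Nat.le_succ t)
    | true => exact le_rfl

theorem ps_cons_true {n d : ℕ} {L : List ℕ} (h : O n d = true) (t : ℕ) :
    ps O n (d :: L) t = 0 := by
  induction t with
  | zero => rfl
  | succ t ih =>
    rw [ps, ih]
    rcases t with _ | t
    · simp [h]
    · simp

theorem ps_cons_false {n d : ℕ} {L : List ℕ} (h : ¬ O n d = true) (t : ℕ) :
    ps O n (d :: L) (t + 1) = ps O n L t + 1 := by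
  induction t with
  | zero => simp [ps, h]
  | succ t ih =>
    rw [ps, ih]
    rw [List.getD_cons_succ]
    conv_rhs => rw [ps]
    by_cases h1 : ps O n L t = t
    · cases h2 : O n (L.getD t 0) <;> simp [h1, h2]
    · simp [h1]

theorem ins_eq (n : ℕ) (L : List ℕ) :
    ins O n L = L.take (ps O n L L.length) ++ n :: L.drop (ps O n L L.length) := by
  induction L with
  | nil => rfl
  | cons d L ih =>
    by_cases h : O n d = true
    · rw [ps_cons_true h]
      unfold ins
      rw [if_pos h]
      rfl
    · rw [List.length_cons, ps_cons_false h]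
      unfold ins
      rw [if_neg h, ih]
      rfl

theorem ps_comp (hO : Computable₂ O) : Computable fun x : (ℕ × List ℕ) × ℕ =>
    ps O x.1.1 x.1.2 x.2 := by
  have h1 : Computable fun x : (ℕ × List ℕ) × ℕ => (Nat.rec 0 (fun t (r : ℕ) =>
      cond (decide (r = t) && !(O x.1.1 (x.1.2.getD t 0))) (t + 1) r) x.2 : ℕ) := by
    refine Computable.nat_rec (f := fun x : (ℕ × List ℕ) × ℕ => x.2) (g := fun _ => 0)
      (h := fun (x : (ℕ × List ℕ) × ℕ) (y : ℕ × ℕ) =>
        cond (decide (y.2 = y.1) && !(O x.1.1 (x.1.2.getD y.1 0))) (y.1 + 1) y.2)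
      Computable.snd (Computable.const 0) ?_
    have ht : Computable fun z : ((ℕ × List ℕ) × ℕ) × (ℕ × ℕ) => z.2.1 :=
      Computable.fst.comp Computable.snd
    have hr : Computable fun z : ((ℕ × List ℕ) × ℕ) × (ℕ × ℕ) => z.2.2 :=
      Computable.snd.comp Computable.snd
    have h2 : Computable fun z : ((ℕ × List ℕ) × ℕ) × (ℕ × ℕ) => decide (z.2.2 = z.2.1) :=
      (PrimrecPred.decide (Primrec.eq.comp (Primrec.snd.comp Primrec.snd)
        (Primrec.fst.comp Primrec.snd))).to_comp
    have h3 : Computable fun z : ((ℕ × List ℕ) × ℕ) × (ℕ × ℕ) => z.1.1.2.getD z.2.1 0 :=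
      ((Primrec.list_getD 0).comp (Primrec.snd.comp (Primrec.fst.comp Primrec.fst))
        (Primrec.fst.comp Primrec.snd)).to_comp
    have h4 : Computable fun z : ((ℕ × List ℕ) × ℕ) × (ℕ × ℕ) =>
        O z.1.1.1 (z.1.1.2.getD z.2.1 0) :=
      hO.comp (Computable.fst.comp (Computable.fst.comp Computable.fst)) h3
    have h5 : Computable fun z : ((ℕ × List ℕ) × ℕ) × (ℕ × ℕ) =>
        (decide (z.2.2 = z.2.1) && !(O z.1.1.1 (z.1.1.2.getD z.2.1 0))) :=
      Computable₂.comp (f := fun a b : Bool => a && b) Primrec.and.to_comp h2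
        (Primrec.not.to_comp.comp h4)
    exact Computable.cond h5 (Computable.succ.comp ht) hr
  refine h1.of_eq fun x => ?_
  rcases x with ⟨⟨n, L⟩, t⟩
  induction t with
  | zero => rfl
  | succ t ih =>
    show cond (decide ((Nat.rec 0 (fun t (r : ℕ) =>
      cond (decide (r = t) && !(O n (L.getD t 0))) (t + 1) r) t : ℕ) = t) &&
        !(O n (L.getD t 0))) (t + 1) (Nat.rec 0 (fun t (r : ℕ) =>
      cond (decide (r = t) && !(O n (L.getD t 0))) (t + 1) r) t : ℕ) = ps O n L (t + 1)
    rw [show (Nat.rec 0 (fun t (r : ℕ) =>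
      cond (decide (r = t) && !(O n (L.getD t 0))) (t + 1) r) t : ℕ) = ps O n L t from ih]
    rfl

theorem srt_comp (hO : Computable₂ O) : Computable (srt O) := by
  have h1 : Computable fun n : ℕ => (Nat.rec [] (fun n (L : List ℕ) =>
      L.take (ps O n L L.length) ++ n :: L.drop (ps O n L L.length)) n : List ℕ) := by
    refine Computable.nat_rec (f := fun n : ℕ => n) (g := fun _ => ([] : List ℕ))
      (h := fun (_ : ℕ) (y : ℕ × List ℕ) =>
        y.2.take (ps O y.1 y.2 y.2.length) ++ y.1 :: y.2.drop (ps O y.1 y.2 y.2.length))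
      Computable.id (Computable.const []) ?_
    have hn : Computable fun z : ℕ × (ℕ × List ℕ) => z.2.1 := Computable.fst.comp Computable.snd
    have hL : Computable fun z : ℕ × (ℕ × List ℕ) => z.2.2 := Computable.snd.comp Computable.snd
    have hp : Computable fun z : ℕ × (ℕ × List ℕ) => ps O z.2.1 z.2.2 z.2.2.length :=
      (ps_comp hO).comp (g := fun z : ℕ × (ℕ × List ℕ) =>
        (((z.2.1, z.2.2), z.2.2.length) : (ℕ × List ℕ) × ℕ))
        ((hn.pair hL).pair (Computable.list_length.comp hL))
    have h2 : Computable fun z : ℕ × (ℕ × List ℕ) =>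
        z.2.2.take (ps O z.2.1 z.2.2 z.2.2.length) :=
      Computable₂.comp (f := (List.take : ℕ → List ℕ → List ℕ)) Primrec.list_take.to_comp hp hL
    have h3 : Computable fun z : ℕ × (ℕ × List ℕ) =>
        z.2.2.drop (ps O z.2.1 z.2.2 z.2.2.length) :=
      Computable₂.comp (f := (List.drop : ℕ → List ℕ → List ℕ)) Primrec.list_drop.to_comp hp hL
    have h4 : Computable fun z : ℕ × (ℕ × List ℕ) =>
        z.2.1 :: z.2.2.drop (ps O z.2.1 z.2.2 z.2.2.length) :=
      Computable₂.comp (f := fun (a : ℕ) (l : List ℕ) => a :: l) Primrec.list_cons.to_comp hn h3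
    exact Computable₂.comp (f := fun a b : List ℕ => a ++ b) Primrec.list_append.to_comp h2 h4
  refine h1.of_eq fun n => ?_
  induction n with
  | zero => rfl
  | succ n ih =>
    rw [srt, ins_eq, ← ih]

theorem sg_comp (hO : Computable₂ O) : Computable₂ (sg O) :=
  Computable₂.comp (f := fun (l : List ℕ) (t : ℕ) => l.getD t 0) (Primrec.list_getD 0).to_comp
    ((srt_comp hO).comp Computable.fst) Computable.snd

end Pool.Agent.V7H75.TX
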