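import Pool.Agent.V7H75.TX.Ord

set_option autoImplicit false

/-!
Infinitely many columns, partially ordered; the changes of a column may depend on all the columns
above it.
-/

namespace Pool.Agent.V7H75.TX.P

open Encodable Pool.Agent.Helper227
open Pool.Agent.V7H75.HF (Cl UD U1 evn odd evn_join odd_join rd rd_join cd cd_encode)
open Pool.Agent.V7H67.IB (Sys dk dk_encode dk_zero dk_prim bl bl_mono bl_prim encode_le_bl
  Fst Fst_UD exists_Fst uc ob gK gK_prim sh sh_sh sh_ob K_sh link Tk Tk_comp Ap mk mk_comp)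

/-- words for the columns with the numbers from `i` to `n - 1` in the order of level `n`, where
`n = i + s`; the columns with the numbers below `i` are made empty -/
def V (σ : ℕ → ℕ → ℕ) (f : ℕ → ℕ → (ℕ → Bool) → ℕ → Bool) (n : ℕ) :
    ℕ → ℕ → ℕ → (ℕ → Bool) → ℕ → Bool
  | 0, _, _, X => ge n X
  | s + 1, k, i, X => fun z =>
      if z.unpair.1 = σ n i then
        ap (f (σ n i)) col (dk k.unpair.1)
          (fun y => V σ f n s y.unpair.1 (i + 1) X y.unpair.2) (col (σ n i) X) z.unpair.2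
      else V σ f n s k.unpair.2 (i + 1) X z

/-- the bounds for the indices -/
def CC (n : ℕ) : ℕ → ℕ
  | 0 => 1
  | s + 1 => (CC n s + bl (Nat.pair n (CC n s)) (3 * gK n + 1 + 2 ^ (n * CC n s)) + 1) ^ 2

/-- `S l`, with the columns above `c` as the parameter -/
def Sj (O : ℕ → ℕ → Bool) (S : ℕ → (ℕ → Bool) → ℕ → Bool) (c l : ℕ) (X : ℕ → Bool) : ℕ → Bool :=
  S l (join (evn X) (up O c (odd X)))

/-- `S l` of the columns above `c` -/
def Su (O : ℕ → ℕ → Bool) (S : ℕ → (ℕ → Bool) → ℕ → Bool) (c l : ℕ) (X : ℕ → Bool) : ℕ → Bool :=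
  S l (up O c X)

/-- the maps: the columns in `J` have the forward map `T c`, and `S l` gives inverse branches; the
other columns are translated -/
def ff (O : ℕ → ℕ → Bool) (J : ℕ → Bool) (T S : ℕ → (ℕ → Bool) → ℕ → Bool) (c : ℕ) :
    ℕ → (ℕ → Bool) → ℕ → Bool :=
  fun b X => cond (J c) (fa (T c) (Sj O S c) b X) (tr (Su O S c) b X)

/-- the allowed indices -/
def RR (σ : ℕ → ℕ → ℕ) (J : ℕ → Bool) (T : ℕ → (ℕ → Bool) → ℕ → Bool) (n : ℕ) :
    ℕ → ℕ → (ℕ → Bool) → ℕ → Prop
  | 0, _, _, k => k = 0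
  | s + 1, i, X, k => (k.unpair.2 < CC n s ∧ RR σ J T n s (i + 1) X k.unpair.2) ∧
      ((J (σ n i) = true ∧ ∃ a < gK n + 1, Fst (ob (T (σ n i)) (col (σ n i) X)) n a ∧
        fOk (fun _ => CC n s) (fun _ _ u => RR σ J T n s (i + 1) X u) n a X (dk k.unpair.1)) ∨
      (¬ J (σ n i) = true ∧ (dk k.unpair.1).length ≤ 2 ^ (n * CC n s) ∧
        Ok (fun _ => CC n s) (fun _ _ u => RR σ J T n s (i + 1) X u) n X (dk k.unpair.1)))

/-- the points -/
def G (σ : ℕ → ℕ → ℕ) (O : ℕ → ℕ → Bool) (J : ℕ → Bool) (T S : ℕ → (ℕ → Bool) → ℕ → Bool)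
    (n s i : ℕ) (X : ℕ → Bool) : Set (ℕ → Bool) :=
  {Y | ∃ k < CC n s, RR σ J T n s i X k ∧ Y = V σ (ff O J T S) n s k i X}

/-- the points of the column `c`, for the parameters in `P` -/
def Lf (O : ℕ → ℕ → Bool) (J : ℕ → Bool) (T S : ℕ → (ℕ → Bool) → ℕ → Bool) (n c : ℕ)
    (P : Set (ℕ → Bool)) (A : ℕ → Bool) : Set (ℕ → Bool) :=
  {B | (J c = true ∧ B ∈ BL (T c) (fB (Sj O S c) n P) n A) ∨
    (¬ J c = true ∧ B ∈ Orb (tr (Su O S c)) n P A)}

/-- the oracle with the columns `V s u (i + 1) X` -/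
def EE (σ : ℕ → ℕ → ℕ) (f : ℕ → ℕ → (ℕ → Bool) → ℕ → Bool) (n s i : ℕ) (X : ℕ → Bool) :
    ℕ → Bool :=
  fun y => V σ f n s y.unpair.1 (i + 1) X y.unpair.2

section lists

variable {σ : ℕ → ℕ → ℕ} {O : ℕ → ℕ → Bool} {J : ℕ → Bool} {T S : ℕ → (ℕ → Bool) → ℕ → Bool}

theorem col_EE (f : ℕ → ℕ → (ℕ → Bool) → ℕ → Bool) (n s i u : ℕ) (X : ℕ → Bool) :
    col u (EE σ f n s i X) = V σ f n s u (i + 1) X := by
  funext y
  unfold col EE
  rw [Nat.unpair_pair]

theorem V_succ (f : ℕ → ℕ → (ℕ → Bool) → ℕ → Bool) (n s k i : ℕ) (X : ℕ → Bool) :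
    V σ f n (s + 1) k i X = glue (σ n i) (V σ f n s k.unpair.2 (i + 1) X,
      ap (f (σ n i)) col (dk k.unpair.1) (EE σ f n s i X) (col (σ n i) X)) := rfl

theorem CC_pos (n s : ℕ) : 0 < CC n s := by
  cases s with
  | zero => exact Nat.one_pos
  | succ s => exact Nat.pow_pos (Nat.succ_pos _)

/-- the parameters -/
theorem Cl_EE {n s i : ℕ} {X : ℕ → Bool} :
    Cl (fun _ => CC n s) col (fun _ _ u => RR σ J T n s (i + 1) X u) n
      (EE σ (ff O J T S) n s i X) = G σ O J T S n s (i + 1) X := by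
  ext Y
  constructor
  · rintro ⟨u, h1, h2, rfl⟩
    exact ⟨u, h1, h2, col_EE _ _ _ _ _ _⟩
  · rintro ⟨u, h1, h2, rfl⟩
    exact ⟨u, h1, h2, (col_EE _ _ _ _ _ _).symm⟩

theorem G_encard (n s i : ℕ) (X : ℕ → Bool) : (G σ O J T S n s i X).encard ≤ CC n s := by
  have h1 : G σ O J T S n s i X ⊆
      (fun k => V σ (ff O J T S) n s k i X) '' (Finset.range (CC n s) : Set ℕ) := by
    rintro Y ⟨k, hk, -, rfl⟩
    exact ⟨k, by simpa using hk, rfl⟩
  refine (Set.encard_le_encard h1).trans ((Set.encard_image_le _ _).trans ?_)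
  rw [Set.encard_coe_eq_coe_finsetCard, Finset.card_range]

theorem ff_true {c : ℕ} (h : J c = true) : ff O J T S c = fa (T c) (Sj O S c) := by
  funext b X
  simp [ff, h]

theorem ff_false {c : ℕ} (h : ¬ J c = true) : ff O J T S c = tr (Su O S c) := by
  funext b X
  simp [ff, h]

theorem mem_G {n s i : ℕ} {X Y : ℕ → Bool} : Y ∈ G σ O J T S n (s + 1) i X ↔
    ∃ Y' ∈ G σ O J T S n s (i + 1) X,
      ∃ C ∈ Lf O J T S n (σ n i) (G σ O J T S n s (i + 1) X) (col (σ n i) X),
        Y = glue (σ n i) (Y', C) := by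
  constructor
  · rintro ⟨k, -, ⟨⟨h1, h2⟩, h3⟩, rfl⟩
    refine ⟨_, ⟨_, h1, h2, rfl⟩, _, ?_, V_succ _ _ _ _ _ _⟩
    rcases h3 with ⟨hJ, a, -, h4, h5⟩ | ⟨hJ, -, h5⟩
    · refine Or.inl ⟨hJ, ?_⟩
      rw [ff_true hJ]
      obtain ⟨w, j, h6, h7, h8, h9⟩ := fOk_iff.1 h5
      obtain ⟨v, h10, h11, h12⟩ := ap_back (S := Sj O S (σ n i)) (T := T (σ n i)) (U := col)
        (c := fun _ => CC n s) (R := fun _ _ u => RR σ J T n s (i + 1) X u)
        (Z := EE σ (fun j => ff O J T S j) n s i X)
        (A := (T (σ n i))^[j] (col (σ n i) X)) h6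
      refine ⟨a, v, j, h4, ?_, by omega, h8, ?_⟩
      · have h13 : Cl (fun _ => CC n s) col (fun _ _ u => RR σ J T n s (i + 1) X u) n
            (EE σ (fun j => ff O J T S j) n s i X) = G σ O J T S n s (i + 1) X := Cl_EE
        rwa [h13] at h11
      · rw [h9, ap_append, ap_replicate]
        exact h12
    · refine Or.inr ⟨hJ, ?_⟩
      rw [ff_false hJ]
      have h13 := ap_mem (α := tr (Su O S (σ n i))) (T := col) (c := fun _ => CC n s)
        (R := fun _ _ u => RR σ J T n s (i + 1) X u) (Z := EE σ (ff O J T S) n s i X)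
        (A := col (σ n i) X) h5
      rwa [Cl_EE] at h13
  · rintro ⟨Y', ⟨u, h1, h2, rfl⟩, C, h3, rfl⟩
    have key : ∃ D, encode D ≤ bl (Nat.pair n (CC n s)) (3 * gK n + 1 + 2 ^ (n * CC n s)) ∧
        ((J (σ n i) = true ∧ ∃ a < gK n + 1, Fst (ob (T (σ n i)) (col (σ n i) X)) n a ∧
          fOk (fun _ => CC n s) (fun _ _ u => RR σ J T n s (i + 1) X u) n a X D) ∨
        (¬ J (σ n i) = true ∧ D.length ≤ 2 ^ (n * CC n s) ∧
          Ok (fun _ => CC n s) (fun _ _ u => RR σ J T n s (i + 1) X u) n X D)) ∧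
            C = ap (ff O J T S (σ n i)) col D (EE σ (ff O J T S) n s i X) (col (σ n i) X) := by
      rcases h3 with ⟨hJ, a, w', j, h4, h5, h6, h7, h8⟩ | ⟨hJ, h4⟩
      · rw [ff_true hJ]
        rw [← Cl_EE] at h5
        obtain ⟨w, h9, h10, h11⟩ := back_ap (T := T (σ n i))
          (A := (T (σ n i))^[j] (col (σ n i) X)) h5
        have ha : a ≤ gK n := by
          obtain ⟨b, h12, h13⟩ := exists_Fst (ob (T (σ n i)) (col (σ n i) X)) n
          rwa [h4.uniq h12]
        have hlen : (w ++ List.replicate j 0).length = w.length + j := by simp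
        refine ⟨w ++ List.replicate j 0, ?_, Or.inl ⟨hJ, a, by omega, h4,
          fOk_iff.2 ⟨w, j, h10, by omega, h7, rfl⟩⟩, ?_⟩
        · refine (encode_le_bl (Nat.pair n (CC n s)) _ fun b hb => ?_).trans (bl_mono _ ?_)
          · rcases List.mem_append.1 hb with h12 | h12
            · have h13 := h10 b h12
              rw [← Nat.pair_unpair b]
              exact pair_mono h13.1.2 h13.2.1.le
            · rw [List.eq_of_mem_replicate h12]
              exact Nat.zero_le _
          · have h13 : w.length ≤ gK n := by omega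
            rw [hlen]
            exact (show w.length + j ≤ 3 * gK n + 1 by omega).trans (Nat.le_add_right _ _)
        · rw [ap_append, ap_replicate, ← h11, ← h8]
      · rw [ff_false hJ]
        rw [← Cl_EE] at h4
        have h5 : (Orb (tr (Su O S (σ n i))) n (Cl (fun _ => CC n s) col
            (fun _ _ u => RR σ J T n s (i + 1) X u) n (EE σ (ff O J T S) n s i X))
              (col (σ n i) X)).encard ≤ (2 ^ (n * CC n s) : ℕ) := by
          refine tr_bound (Su O S (σ n i)) n (CC n s) _ _ ?_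
          rw [Cl_EE]
          exact G_encard _ _ _ _
        obtain ⟨D, h6, h7, h8⟩ := exists_word h5 h4
        refine ⟨D, ?_, Or.inr ⟨hJ, h6, h7⟩, h8⟩
        refine (encode_le_bl (Nat.pair n (CC n s)) D fun b hb => ?_).trans (bl_mono _ ?_)
        · have h9 := h7 b hb
          rw [← Nat.pair_unpair b]
          exact pair_mono h9.1.le h9.2.1.le
        · omega
    obtain ⟨D, h4, h5, h6⟩ := key
    refine ⟨Nat.pair (encode D) u, ?_, ⟨⟨?_, ?_⟩, ?_⟩, ?_⟩
    · have h8 := Nat.pair_lt_max_add_one_sq (encode D) u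
      have h9 : max (encode D) u + 1 ≤
          CC n s + bl (Nat.pair n (CC n s)) (3 * gK n + 1 + 2 ^ (n * CC n s)) + 1 := by omega
      exact h8.trans_le (Nat.pow_le_pow_left h9 2)
    · rw [Nat.unpair_pair]
      exact h1
    · rw [Nat.unpair_pair]
      exact h2
    · rw [Nat.unpair_pair, dk_encode]
      exact h5
    · rw [V_succ, Nat.unpair_pair, dk_encode, ← h6]

theorem G_zero {n i : ℕ} {X : ℕ → Bool} : G σ O J T S n 0 i X = {ge n X} := by
  ext Y
  rw [Set.mem_singleton_iff]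
  constructor
  · rintro ⟨k, -, -, rfl⟩
    rfl
  · rintro rfl
    exact ⟨0, CC_pos _ _, rfl, rfl⟩

theorem Lf_self (n c : ℕ) (P : Set (ℕ → Bool)) (A : ℕ → Bool) : A ∈ Lf O J T S n c P A := by
  by_cases h : J c = true
  · exact Or.inl ⟨h, BL_self _ _ _ _⟩
  · exact Or.inr ⟨h, Relation.ReflTransGen.refl⟩

end lists

/-! ### the columns which are kept -/

section kept

variable {O : ℕ → ℕ → Bool} {J : ℕ → Bool} {T S : ℕ → (ℕ → Bool) → ℕ → Bool}

/-- the columns from `n` on, and those with the numbers from `i` on in the order of level `n` -/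
def kp (O : ℕ → ℕ → Bool) (n i : ℕ) (X : ℕ → Bool) : ℕ → Bool := fun z =>
  decide (n ≤ z.unpair.1 ∨ z.unpair.1 ∈ (srt O n).drop i) && X z

theorem kp_top (n : ℕ) (X : ℕ → Bool) : kp O n n X = ge n X := by
  funext z
  have h1 : (srt O n).drop n = [] := List.drop_eq_nil_of_le (by rw [length_srt])
  simp [kp, ge, h1]

theorem kp_zero (n : ℕ) (X : ℕ → Bool) : kp O n 0 X = X := by
  funext z
  have h1 : n ≤ z.unpair.1 ∨ z.unpair.1 ∈ (srt O n).drop 0 := by
    rw [List.drop_zero, mem_srt]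
    omega
  simp only [kp, h1, decide_true, Bool.true_and]

theorem drop_sg {n i : ℕ} (h : i < n) : (srt O n).drop i = sg O n i :: (srt O n).drop (i + 1) := by
  rw [List.drop_eq_getElem_cons (by rwa [length_srt]), sg_eq h]

theorem kp_glue {n i : ℕ} (h : i < n) (X : ℕ → Bool) :
    glue (sg O n i) (kp O n (i + 1) X, col (sg O n i) X) = kp O n i X := by
  funext z
  unfold glue kp
  by_cases h1 : z.unpair.1 = sg O n i
  · rw [if_pos h1, drop_sg h, h1]
    show X (Nat.pair (sg O n i) z.unpair.2) = _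
    rw [← h1, Nat.pair_unpair]
    simp
  · rw [if_neg h1, drop_sg h]
    simp only [List.mem_cons, h1, false_or]

theorem kp_congr {n i : ℕ} {X Y : ℕ → Bool} (h : kp O n i X = kp O n i Y) :
    kp O n (i + 1) X = kp O n (i + 1) Y := by
  funext z
  have h1 := congrFun h z
  unfold kp at h1 ⊢
  by_cases h2 : n ≤ z.unpair.1 ∨ z.unpair.1 ∈ (srt O n).drop (i + 1)
  · have h3 : n ≤ z.unpair.1 ∨ z.unpair.1 ∈ (srt O n).drop i := by
      refine h2.imp id fun h4 => ?_
      rw [← List.drop_drop] at h4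
      exact List.mem_of_mem_drop h4
    simp only [h3, decide_true, Bool.true_and] at h1
    rw [h1]
  · simp only [h2, decide_false, Bool.false_and]

theorem col_kp {n i : ℕ} (hn : i < n) {X Y : ℕ → Bool} (h : kp O n i X = kp O n i Y) :
    col (sg O n i) X = col (sg O n i) Y := by
  funext y
  have h1 := congrFun h (Nat.pair (sg O n i) y)
  unfold kp at h1
  rw [drop_sg hn] at h1
  simpa [Nat.unpair_pair, col] using h1

variable (hi : ∀ a, O a a = false) (ht : ∀ a b c, O a b = true → O b c = true → O a c = true)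

include hi ht in
theorem kp_eq {n t : ℕ} (hn : t < n) {X Y : ℕ → Bool}
    (h : ∀ i, i ≠ sg O n t → col i Y = col i X) : kp O n (t + 1) X = kp O n (t + 1) Y := by
  funext z
  unfold kp
  by_cases h1 : n ≤ z.unpair.1 ∨ z.unpair.1 ∈ (srt O n).drop (t + 1)
  · have h2 : z.unpair.1 ≠ sg O n t := by
      intro h3
      rcases h1 with h1 | h1
      · have := sg_lt (O := O) hn
        omega
      · obtain ⟨m, hm, h4⟩ := List.getElem_of_mem h1
        rw [List.length_drop, length_srt] at hm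
        rw [List.getElem_drop, ← sg_eq (O := O) (by omega), h3] at h4
        have := sg_inj hi ht (by omega) hn h4
        omega
    have h5 := congrFun (h z.unpair.1 h2) z.unpair.2
    unfold col at h5
    rw [Nat.pair_unpair] at h5
    rw [h5]
  · simp only [h1, decide_false, Bool.false_and]

include hi ht in
theorem up_kp {n t : ℕ} (hn : t < n) (X : ℕ → Bool) :
    up O (sg O n t) (kp O n (t + 1) X) = up O (sg O n t) X := by
  funext z
  unfold up kp
  by_cases h1 : O (sg O n t) z.unpair.1 = true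
  · have h2 : n ≤ z.unpair.1 ∨ z.unpair.1 ∈ (srt O n).drop (t + 1) := by
      by_cases h3 : z.unpair.1 < n
      · obtain ⟨m, hm, h4⟩ := exists_sg (O := O) h3
        rw [← h4] at h1 ⊢
        have h5 := sg_order hi ht hn hm h1
        right
        rw [sg_eq hm, List.mem_iff_getElem]
        refine ⟨m - (t + 1), by rw [List.length_drop, length_srt]; omega, ?_⟩
        rw [List.getElem_drop]
        congr 1
        omega
      · exact Or.inl (by omega)
    simp only [h2, decide_true, Bool.true_and]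
  · rw [Bool.not_eq_true] at h1
    rw [h1, Bool.false_and, Bool.false_and]

theorem G_self (n s : ℕ) : ∀ (i : ℕ) (X : ℕ → Bool), i + s = n →
    kp O n i X ∈ G (sg O) O J T S n s i X := by
  induction s with
  | zero =>
    intro i X h
    obtain rfl : i = n := h
    rw [G_zero, kp_top]
    rfl
  | succ s ih =>
    intro i X h
    exact mem_G.2 ⟨_, ih (i + 1) X (by omega), _, Lf_self _ _ _ _, (kp_glue (by omega) X).symm⟩

theorem G_congr (n s : ℕ) : ∀ (i : ℕ) {X Y : ℕ → Bool}, i + s = n → kp O n i X = kp O n i Y →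
    G (sg O) O J T S n s i X = G (sg O) O J T S n s i Y := by
  induction s with
  | zero =>
    intro i X Y h h'
    obtain rfl : i = n := h
    rw [G_zero, G_zero, ← kp_top (O := O), ← kp_top (O := O), h']
  | succ s ih =>
    intro i X Y h h'
    ext B
    rw [mem_G, mem_G, ih (i + 1) (by omega) (kp_congr h'), col_kp (by omega) h']

include hi ht in
/-- the lists of two oracles which differ in one column -/
theorem G_eq {n t : ℕ} {X Y : ℕ → Bool} (hn : t < n)
    (h1 : ∀ i, i ≠ sg O n t → col i Y = col i X)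
    (h2 : Lf O J T S n (sg O n t) (G (sg O) O J T S n (n - (t + 1)) (t + 1) X)
        (col (sg O n t) X) =
      Lf O J T S n (sg O n t) (G (sg O) O J T S n (n - (t + 1)) (t + 1) X)
        (col (sg O n t) Y)) :
    G (sg O) O J T S n n 0 X = G (sg O) O J T S n n 0 Y := by
  have h3 := kp_eq hi ht hn h1
  have key : ∀ m ≤ t, G (sg O) O J T S n (n - (t - m)) (t - m) X =
      G (sg O) O J T S n (n - (t - m)) (t - m) Y := by
    intro m
    induction m with
    | zero =>
      intro _
      have hs : n - (t - 0) = (n - (t + 1)) + 1 := by omega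
      rw [hs, Nat.sub_zero]
      ext B
      rw [mem_G, mem_G, h2, G_congr n _ (t + 1) (by omega) h3]
    | succ m ih =>
      intro hm
      have h4 := ih (by omega)
      obtain ⟨i, hi'⟩ : ∃ i, t - m = i + 1 := ⟨t - (m + 1), by omega⟩
      have hi'' : t - (m + 1) = i := by omega
      have hs : n - i = (n - (i + 1)) + 1 := by omega
      rw [hi'] at h4
      rw [hi'', hs]
      have h5 : sg O n i ≠ sg O n t := by
        intro h6
        have := sg_inj hi ht (by omega) hn h6
        omega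
      ext B
      rw [mem_G, mem_G, h4, h1 _ h5]
  have h4 := key t le_rfl
  rwa [Nat.sub_self, Nat.sub_zero] at h4

end kept

end Pool.Agent.V7H75.TX.P
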