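import Pool.Agent.V7H75.TX.PosU

set_option autoImplicit false

/-!
One solution to Post's problem for infinitely many columns, partially ordered.
-/

namespace Pool.Agent.V7H75.TX.P

open Encodable Pool.Agent.Helper227
open Pool.Agent.H548R2.Post (chr)
open Pool.Agent.H869R3.RT (PostIndex)
open Pool.Agent.V7H75.HF (Cl UD U1 evn odd evn_join odd_join TT)
open Pool.Agent.V7H67.IB (Sys dk dk_encode dk_zero dk_prim bl bl_mono bl_prim encode_le_bl Tk
  Tk_comp Tk_UD Ap mk mk_comp main_sys exists_all TTs PRed TTs.ud)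

variable {O : ℕ → ℕ → Bool} {J : ℕ → Bool} {T S : ℕ → (ℕ → Bool) → ℕ → Bool}

/-- the maps with one number -/
def gL (O : ℕ → ℕ → Bool) (J : ℕ → Bool) (T S : ℕ → (ℕ → Bool) → ℕ → Bool) (b : ℕ)
    (X : ℕ → Bool) : ℕ → Bool :=
  V (sg O) (ff O J T S) b.unpair.1 b.unpair.1 b.unpair.2 0 X

/-- the bounds -/
def gc (n : ℕ) : ℕ := bl (Nat.pair n (CC n n)) 1 + 1

/-- the indices of the members of the list -/
def gR (O : ℕ → ℕ → Bool) (J : ℕ → Bool) (T : ℕ → (ℕ → Bool) → ℕ → Bool) (n : ℕ) (X : ℕ → Bool)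
    (k : ℕ) : Prop :=
  ((dk k).length = 1 ∧ ((dk k).getD 0 0).unpair.1 = n) ∧
    (((dk k).getD 0 0).unpair.2 < CC n n ∧ RR (sg O) J T n n 0 X ((dk k).getD 0 0).unpair.2)

theorem Cl_gR (n : ℕ) (X : ℕ → Bool) :
    Cl gc (Tk (gL O J T S)) (gR O J T) n X = G (sg O) O J T S n n 0 X := by
  ext Y
  constructor
  · rintro ⟨k, -, ⟨⟨h1, h2⟩, h3, h4⟩, rfl⟩
    obtain ⟨b, hb⟩ := List.length_eq_one_iff.1 h1
    refine ⟨_, h3, h4, ?_⟩
    show Ap (gL O J T S) (dk k) X = _
    rw [hb] at h2 ⊢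
    show V (sg O) (ff O J T S) b.unpair.1 b.unpair.1 b.unpair.2 0 X =
      V (sg O) (ff O J T S) n n b.unpair.2 0 X
    rw [show b.unpair.1 = n from h2]
  · rintro ⟨k, h1, h2, rfl⟩
    refine ⟨encode [Nat.pair n k], ?_, ⟨⟨?_, ?_⟩, ?_, ?_⟩, ?_⟩
    · have h3 := encode_le_bl (Nat.pair n (CC n n)) [Nat.pair n k] fun b hb => by
        rw [List.mem_singleton.1 hb]
        exact pair_mono le_rfl h1.le
      exact Nat.lt_succ_of_le h3
    · rw [dk_encode]
      rfl
    · rw [dk_encode]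
      show (Nat.pair n k).unpair.1 = n
      rw [Nat.unpair_pair]
    · rw [dk_encode]
      show (Nat.pair n k).unpair.2 < _
      rw [Nat.unpair_pair]
      exact h1
    · rw [dk_encode]
      show RR (sg O) J T n n 0 X (Nat.pair n k).unpair.2
      rw [Nat.unpair_pair]
      exact h2
    · show _ = Ap (gL O J T S) (dk _) X
      rw [dk_encode]
      show _ = V (sg O) (ff O J T S) (Nat.pair n k).unpair.1 (Nat.pair n k).unpair.1
        (Nat.pair n k).unpair.2 0 X
      rw [Nat.unpair_pair]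

theorem gsys : Sys mk gc (Tk (gL O J T S)) (gR O J T) where
  comp := Tk_comp _
  one := Tk_zero _
  self n X := by
    rw [Cl_gR]
    have h1 := G_self (O := O) (J := J) (T := T) (S := S) n n 0 X (Nat.zero_add n)
    rwa [kp_zero] at h1

theorem gc_comp : Computable gc := by
  have h1 : Primrec fun n => CC n n := CC_prim.comp Primrec.id Primrec.id
  have h2 : Primrec fun n => bl (Nat.pair n (CC n n)) 1 + 1 :=
    Primrec.succ.comp (bl_prim.comp (Primrec₂.natPair.comp Primrec.id h1) (Primrec.const 1))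
  exact h2.to_comp

theorem gL_UD (hO : Computable₂ O) (hJ : Computable J)
    (hT : UD fun B (x : ℕ × ℕ) => T x.1 B x.2 = true)
    (hS : UD fun B (x : ℕ × ℕ) => S x.1 B x.2 = true) :
    UD fun B (x : ℕ × ℕ) => gL O J T S x.1 B x.2 = true := by
  have hu : Primrec fun x : ℕ × ℕ => x.1.unpair := Primrec.unpair.comp Primrec.fst
  exact (V_UD (ff_UD hO hJ hT hS) (sg_comp hO)).comp
    (f := fun x : ℕ × ℕ => (x.1.unpair.1, (x.1.unpair.1, (x.1.unpair.2, (0, x.2)))))
    ((Primrec.fst.comp hu).pair ((Primrec.fst.comp hu).pair ((Primrec.snd.comp hu).pair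
      ((Primrec.const 0).pair Primrec.snd)))).to_comp

theorem gR_UD (hO : Computable₂ O) (hJ : Computable J)
    (hT : UD fun B (x : ℕ × ℕ) => T x.1 B x.2 = true) :
    UD fun B (x : ℕ × ℕ) => gR O J T x.1 B x.2 := by
  have hd : Primrec fun x : ℕ × ℕ => dk x.2 := dk_prim.comp Primrec.snd
  have hb : Primrec fun x : ℕ × ℕ => ((dk x.2).getD 0 0).unpair :=
    Primrec.unpair.comp ((Primrec.list_getD 0).comp hd (Primrec.const 0))
  refine UD.and (UD.and ?_ ?_) (UD.and ?_ ?_)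
  · exact UD.of_prim (Primrec.eq.comp (Primrec.list_length.comp hd) (Primrec.const 1))
  · exact UD.of_prim (Primrec.eq.comp (Primrec.fst.comp hb) Primrec.fst)
  · exact UD.of_prim (Primrec.nat_lt.comp (Primrec.snd.comp hb)
      (CC_prim.comp Primrec.fst Primrec.fst))
  · exact (RR_UD (sg_comp hO) hJ hT).comp (f := fun x : ℕ × ℕ =>
      (x.1, (x.1, (0, ((dk x.2).getD 0 0).unpair.2))))
      (Primrec.fst.pair (Primrec.fst.pair ((Primrec.const 0).pair (Primrec.snd.comp hb)))).to_comp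

section links

variable (hi : ∀ a, O a a = false) (ht : ∀ a b c, O a b = true → O b c = true → O a c = true)

include hi ht

theorem link_true {X Y : ℕ → Bool} {j l : ℕ} (h1 : ∀ i, i ≠ j → col i Y = col i X)
    (hJ : J j = true) (h2 : col j Y = T j (col j X))
    (h3 : S l (join (col j Y) (up O j X)) = col j X) :
    ∃ N, ∀ n ≥ N, G (sg O) O J T S n n 0 X = G (sg O) O J T S n n 0 Y := by
  obtain ⟨N, hN⟩ := BL_eq (T j) (col j X)
  refine ⟨max N (max (l + 1) (j + 1)), fun n hn => ?_⟩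
  have h4 : N ≤ n := (le_max_left _ _).trans hn
  have h5 : l + 1 ≤ n := (le_max_left _ _).trans ((le_max_right _ _).trans hn)
  have h6 : j + 1 ≤ n := (le_max_right _ _).trans ((le_max_right _ _).trans hn)
  obtain ⟨t, htn, htj⟩ := exists_sg (O := O) (show j < n from h6)
  subst htj
  refine G_eq hi ht htn h1 ?_
  have h7 := hN n h4 (fB (Sj O S (sg O n t)) n (G (sg O) O J T S n (n - (t + 1)) (t + 1) X))
    ⟨fun r => Sj O S (sg O n t) l (join r (kp O n (t + 1) X)), ⟨l, h5, kp O n (t + 1) X,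
      G_self n (n - (t + 1)) (t + 1) X (by omega), rfl⟩, by
      show Sj O S (sg O n t) l (join (T (sg O n t) (col (sg O n t) X)) (kp O n (t + 1) X)) = _
      unfold Sj
      rw [evn_join, odd_join, up_kp hi ht htn, ← h2, h3]⟩
  rw [h2]
  ext B
  constructor
  · rintro (⟨-, h9⟩ | ⟨h9, -⟩)
    · rw [h7] at h9
      exact Or.inl ⟨hJ, h9⟩
    · exact absurd hJ h9
  · rintro (⟨-, h9⟩ | ⟨h9, -⟩)
    · rw [← h7] at h9
      exact Or.inl ⟨hJ, h9⟩
    · exact absurd hJ h9

theorem link_false {X Y : ℕ → Bool} {j l : ℕ} (h1 : ∀ i, i ≠ j → col i Y = col i X)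
    (hJ : ¬ J j = true) (h2 : S l (up O j X) = fun n => xor (col j X n) (col j Y n)) :
    ∃ N, ∀ n ≥ N, G (sg O) O J T S n n 0 X = G (sg O) O J T S n n 0 Y := by
  refine ⟨max (l + 1) (j + 1), fun n hn => ?_⟩
  have h5 : l + 1 ≤ n := (le_max_left _ _).trans hn
  have h6 : j + 1 ≤ n := (le_max_right _ _).trans hn
  obtain ⟨t, htn, htj⟩ := exists_sg (O := O) (show j < n from h6)
  subst htj
  refine G_eq hi ht htn h1 ?_
  have h7 : col (sg O n t) Y ∈ Orb (tr (Su O S (sg O n t))) n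
      (G (sg O) O J T S n (n - (t + 1)) (t + 1) X) (col (sg O n t) X) := by
    refine Relation.ReflTransGen.single ⟨l, h5, kp O n (t + 1) X,
      G_self n (n - (t + 1)) (t + 1) X (by omega), ?_⟩
    funext y
    unfold tr Su
    rw [evn_join, odd_join, up_kp hi ht htn, h2]
    show _ = xor (col (sg O n t) X y) (xor (col (sg O n t) X y) (col (sg O n t) Y y))
    cases col (sg O n t) X y <;> cases col (sg O n t) Y y <;> rfl
  have h8 := Orb_symm (tr_inv (Su O S (sg O n t))) h7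
  ext B
  constructor
  · rintro (⟨h9, -⟩ | ⟨-, h9⟩)
    · exact absurd h9 hJ
    · exact Or.inr ⟨hJ, Relation.ReflTransGen.trans h8 h9⟩
  · rintro (⟨h9, -⟩ | ⟨-, h9⟩)
    · exact absurd h9 hJ
    · exact Or.inr ⟨hJ, Relation.ReflTransGen.trans h7 h9⟩

/-- one solution to Post's problem for infinitely many columns -/
theorem main_pos (hO : Computable₂ O) (hJ : Computable J) (hT : TTs T) (hS : TTs S) :
    ∃ e : ℕ, PostIndex e ∧ ∀ (X Y : ℕ → Bool) (j : ℕ), (∀ i, i ≠ j → col i Y = col i X) →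
      ((J j = true ∧ col j Y = T j (col j X) ∧
          ((∃ l, S l (join (col j Y) (up O j X)) = col j X) ∨
            PRed (col j X) (join (col j Y) (up O j X)))) ∨
        (J j = false ∧ ((∃ l, S l (up O j X) = fun n => xor (col j X n) (col j Y n)) ∨
          PRed (fun n => xor (col j X n) (col j Y n)) (up O j X)))) →
      TLe (chr (WE X e)) (chr (WE Y e)) ∧ TLe (chr (WE Y e)) (chr (WE X e)) := by
  obtain ⟨S', hS', h1, h2⟩ := exists_all hS
  obtain ⟨e, he, h3⟩ := main_sys (gsys (O := O) (J := J) (T := T) (S := S')) mk_comp gc_comp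
    (Tk_UD (gL_UD hO hJ hT.ud hS'.ud)) (gR_UD hO hJ hT.ud)
  refine ⟨e, he, fun X Y j h4 h5 => h3 X Y ?_⟩
  simp only [Cl_gR]
  rcases h5 with ⟨hj, h6, h7⟩ | ⟨hj, h7⟩
  · have h8 : ∃ l, S' l (join (col j Y) (up O j X)) = col j X := by
      rcases h7 with ⟨l, hl⟩ | h7
      · obtain ⟨l', hl'⟩ := h1 l
        exact ⟨l', by rw [hl', hl]⟩
      · exact h2 _ _ h7
    obtain ⟨l, hl⟩ := h8
    exact link_true hi ht h4 hj h6 hl
  · have h8 : ∃ l, S' l (up O j X) = fun n => xor (col j X n) (col j Y n) := by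
      rcases h7 with ⟨l, hl⟩ | h7
      · obtain ⟨l', hl'⟩ := h1 l
        exact ⟨l', by rw [hl', hl]⟩
      · exact h2 _ _ h7
    obtain ⟨l, hl⟩ := h8
    exact link_false hi ht h4 (by rw [hj]; exact Bool.false_ne_true) hl

end links

end Pool.Agent.V7H75.TX.P
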