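import Pool.Agent.V7H75.TX.Pos

set_option autoImplicit false

/-!
The maps and the lists for infinitely many columns are computable, uniformly in the oracle.
-/

namespace Pool.Agent.V7H75.TX.P

open Encodable Pool.Agent.Helper227
open Pool.Agent.H548R2.Post (primrec_pow)
open Pool.Agent.V7H75.HF (Cl UD U1 evn odd evn_join odd_join rd rd_join cd cd_encode)
open Pool.Agent.V7H67.IB (Sys dk dk_encode dk_zero dk_prim bl bl_mono bl_prim encode_le_bl
  Fst Fst_UD exists_Fst uc ob gK gK_prim)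

/-! ### the maps -/

theorem ap_map (f : ℕ → ℕ → (ℕ → Bool) → ℕ → Bool) (T : ℕ → (ℕ → Bool) → ℕ → Bool) (i : ℕ)
    (D : List ℕ) (Z A : ℕ → Bool) :
    ap (fun b => f b.unpair.1 b.unpair.2) T
      (D.map fun b => Nat.pair (Nat.pair i b.unpair.1) b.unpair.2) Z A = ap (f i) T D Z A := by
  induction D with
  | nil => rfl
  | cons b D ih =>
    rw [List.map_cons, ap_cons, ap_cons, ih]
    simp only [Nat.unpair_pair]

section maps

variable {f : ℕ → ℕ → (ℕ → Bool) → ℕ → Bool}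
  (hf : UD fun B (x : ℕ × ℕ) => f x.1.unpair.1 x.1.unpair.2 B x.2 = true)

include hf in
theorem ap_f_UD : UD fun B (x : ℕ × (List ℕ × ℕ)) =>
    ap (f x.1) col x.2.1 (odd B) (evn B) x.2.2 = true := by
  have h1 := ap_UD (α := fun b => f b.unpair.1 b.unpair.2) hf col_UD
  refine (h1.comp (f := fun x : ℕ × (List ℕ × ℕ) =>
    (x.2.1.map (fun b => Nat.pair (Nat.pair x.1 b.unpair.1) b.unpair.2), x.2.2)) ?_).of_eq
      fun B x => by rw [ap_map]
  have hb : Primrec fun y : (ℕ × (List ℕ × ℕ)) × ℕ => y.2.unpair :=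
    Primrec.unpair.comp Primrec.snd
  exact (Primrec.pair (Primrec.list_map (Primrec.fst.comp Primrec.snd)
    (Primrec₂.natPair.comp (Primrec₂.natPair.comp (Primrec.fst.comp Primrec.fst)
      (Primrec.fst.comp hb)) (Primrec.snd.comp hb)).to₂)
    (Primrec.snd.comp Primrec.snd)).to_comp

include hf in
theorem V_UD {σ : ℕ → ℕ → ℕ} (hσ : Computable₂ σ) :
    UD fun B (x : ℕ × (ℕ × (ℕ × (ℕ × ℕ)))) =>
      V σ f x.2.1 x.1 x.2.2.1 x.2.2.2.1 B x.2.2.2.2 = true := by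
  refine UD.iter' (Y := fun B s (a : ℕ × (ℕ × (ℕ × ℕ))) =>
      V σ f a.1 s a.2.1 a.2.2.1 B a.2.2.2 = true)
    (S := fun W (x : ℕ × (ℕ × (ℕ × (ℕ × ℕ)))) =>
      (x.2.2.2.2.unpair.1 = σ x.2.1 x.2.2.2.1 ∧
        ap (f (σ x.2.1 x.2.2.2.1)) col (dk x.2.2.1.unpair.1)
          (odd (join (col (σ x.2.1 x.2.2.2.1) (evn W))
            (fun y => odd W (encode ((x.2.1, (y.unpair.1, (x.2.2.2.1 + 1, y.unpair.2))) :
              ℕ × (ℕ × (ℕ × ℕ)))))))
          (evn (join (col (σ x.2.1 x.2.2.2.1) (evn W))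
            (fun y => odd W (encode ((x.2.1, (y.unpair.1, (x.2.2.2.1 + 1, y.unpair.2))) :
              ℕ × (ℕ × (ℕ × ℕ)))))))
          x.2.2.2.2.unpair.2 = true) ∨
      (¬ x.2.2.2.2.unpair.1 = σ x.2.1 x.2.2.2.1 ∧
        rd W ((x.2.1, (x.2.2.1.unpair.2, (x.2.2.2.1 + 1, x.2.2.2.2))) :
          ℕ × (ℕ × (ℕ × ℕ))))) ?_ ?_ ?_
  · have h1 : UD fun B (a : ℕ × (ℕ × (ℕ × ℕ))) => a.1 ≤ a.2.2.2.unpair.1 ∧ B a.2.2.2 = true := by
      have hz : Primrec fun a : ℕ × (ℕ × (ℕ × ℕ)) => a.2.2.2 :=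
        Primrec.snd.comp (Primrec.snd.comp Primrec.snd)
      refine UD.and (UD.of_prim ?_) (UD.query.comp (f := fun a : ℕ × (ℕ × (ℕ × ℕ)) => a.2.2.2)
        hz.to_comp)
      exact Primrec.nat_le.comp Primrec.fst (Primrec.fst.comp (Primrec.unpair.comp hz))
    refine h1.of_eq fun B a => ?_
    show _ ↔ ge a.1 B a.2.2.2 = true
    unfold ge
    simp
  · have hn : Primrec fun x : ℕ × (ℕ × (ℕ × (ℕ × ℕ))) => x.2.1 := Primrec.fst.comp Primrec.snd
    have hk : Primrec fun x : ℕ × (ℕ × (ℕ × (ℕ × ℕ))) => x.2.2.1 :=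
      Primrec.fst.comp (Primrec.snd.comp Primrec.snd)
    have hi : Primrec fun x : ℕ × (ℕ × (ℕ × (ℕ × ℕ))) => x.2.2.2.1 :=
      Primrec.fst.comp (Primrec.snd.comp (Primrec.snd.comp Primrec.snd))
    have hz : Primrec fun x : ℕ × (ℕ × (ℕ × (ℕ × ℕ))) => x.2.2.2.2 :=
      Primrec.snd.comp (Primrec.snd.comp (Primrec.snd.comp Primrec.snd))
    have hs : Computable fun x : ℕ × (ℕ × (ℕ × (ℕ × ℕ))) => σ x.2.1 x.2.2.2.1 :=
      hσ.comp hn.to_comp hi.to_comp
    have h0 : UD fun (_ : ℕ → Bool) (x : ℕ × (ℕ × (ℕ × (ℕ × ℕ)))) =>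
        x.2.2.2.2.unpair.1 = σ x.2.1 x.2.2.2.1 :=
      UD.of_comp (p := fun y : ℕ × ℕ => y.1 = y.2) (Primrec.eq.comp Primrec.fst Primrec.snd)
        ((Primrec.fst.comp (Primrec.unpair.comp hz)).to_comp.pair hs)
    refine UD.or (UD.and h0 ?_) (UD.and h0.not ?_)
    · have hF : UD fun W (x : (ℕ × (ℕ × ℕ)) × ℕ) => join (col x.1.1 (evn W)) (fun y =>
          odd W (encode ((x.1.2.1, (y.unpair.1, (x.1.2.2 + 1, y.unpair.2))) :
            ℕ × (ℕ × (ℕ × ℕ))))) x.2 = true := by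
        refine join_UD (F := fun W (w : ℕ × (ℕ × ℕ)) => col w.1 (evn W))
          (G := fun W (w : ℕ × (ℕ × ℕ)) => fun y =>
            odd W (encode ((w.2.1, (y.unpair.1, (w.2.2 + 1, y.unpair.2))) :
              ℕ × (ℕ × (ℕ × ℕ))))) ?_ ?_
        · exact (UD.evn col_UD).comp (f := fun x : (ℕ × (ℕ × ℕ)) × ℕ => (x.1.1, x.2))
            ((Primrec.fst.comp Primrec.fst).pair Primrec.snd).to_comp
        · have hu : Primrec fun x : (ℕ × (ℕ × ℕ)) × ℕ => x.2.unpair :=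
            Primrec.unpair.comp Primrec.snd
          have hw : Primrec fun x : (ℕ × (ℕ × ℕ)) × ℕ => x.1.2 :=
            Primrec.snd.comp Primrec.fst
          exact (UD.rd (α := ℕ × (ℕ × (ℕ × ℕ)))).comp
            (f := fun x : (ℕ × (ℕ × ℕ)) × ℕ =>
              (x.1.2.1, (x.2.unpair.1, (x.1.2.2 + 1, x.2.unpair.2))))
            ((Primrec.fst.comp hw).pair ((Primrec.fst.comp hu).pair
              ((Primrec.succ.comp (Primrec.snd.comp hw)).pair (Primrec.snd.comp hu)))).to_comp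
      have h2 := UD.sub (F := fun W (w : ℕ × (ℕ × ℕ)) => join (col w.1 (evn W)) (fun y =>
          odd W (encode ((w.2.1, (y.unpair.1, (w.2.2 + 1, y.unpair.2))) :
            ℕ × (ℕ × (ℕ × ℕ)))))) hF (ap_f_UD hf)
      exact h2.comp (f := fun x : ℕ × (ℕ × (ℕ × (ℕ × ℕ))) =>
        ((σ x.2.1 x.2.2.2.1, (x.2.1, x.2.2.2.1)),
          (σ x.2.1 x.2.2.2.1, (dk x.2.2.1.unpair.1, x.2.2.2.2.unpair.2))))
        ((hs.pair (hn.pair hi).to_comp).pair (hs.pair
          ((dk_prim.comp (Primrec.fst.comp (Primrec.unpair.comp hk))).pair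
            (Primrec.snd.comp (Primrec.unpair.comp hz))).to_comp))
    · exact (UD.rd (α := ℕ × (ℕ × (ℕ × ℕ)))).comp (f := fun x : ℕ × (ℕ × (ℕ × (ℕ × ℕ))) =>
        (x.2.1, (x.2.2.1.unpair.2, (x.2.2.2.1 + 1, x.2.2.2.2))))
        (hn.pair ((Primrec.snd.comp (Primrec.unpair.comp hk)).pair
          ((Primrec.succ.comp hi).pair hz))).to_comp
  · rintro B s ⟨n, k, i, z⟩
    simp only [rd_join, odd_join, evn_join]
    have h3 : (fun y => cd (fun a : ℕ × (ℕ × (ℕ × ℕ)) =>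
        V σ f a.1 s a.2.1 a.2.2.1 B a.2.2.2 = true)
        (encode ((n, (y.unpair.1, (i + 1, y.unpair.2))) : ℕ × (ℕ × (ℕ × ℕ))))) =
          EE σ f n s i B := by
      funext y
      rw [Bool.eq_iff_iff, cd_encode]
      rfl
    rw [h3, V_succ]
    unfold glue
    by_cases h4 : z.unpair.1 = σ n i
    · simp [h4]
    · simp [h4]

end maps

section ff

variable {O : ℕ → ℕ → Bool} {J : ℕ → Bool} {T S : ℕ → (ℕ → Bool) → ℕ → Bool}

theorem up_UD (hO : Computable₂ O) : UD fun B (x : ℕ × ℕ) => up O x.1 B x.2 = true := by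
  have h1 : Computable fun x : ℕ × ℕ => O x.1 x.2.unpair.1 :=
    hO.comp Computable.fst (Primrec.fst.comp (Primrec.unpair.comp Primrec.snd)).to_comp
  have h2 : UD fun B (x : ℕ × ℕ) => O x.1 x.2.unpair.1 = true ∧ B x.2 = true :=
    UD.and (UD.of_comp (p := fun b : Bool => b = true)
      (Primrec.eq.comp Primrec.id (Primrec.const true)) h1)
      (UD.query.comp (f := fun x : ℕ × ℕ => x.2) Computable.snd)
  refine h2.of_eq fun B x => ?_
  unfold up
  simp

theorem Su_UD (hO : Computable₂ O) (hS : UD fun B (x : ℕ × ℕ) => S x.1 B x.2 = true) :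
    UD fun B (x : ℕ × (ℕ × ℕ)) => Su O S x.1 x.2.1 B x.2.2 = true :=
  UD.sub (F := fun B (c : ℕ) => up O c B) (up_UD hO) hS

theorem Sj_UD (hO : Computable₂ O) (hS : UD fun B (x : ℕ × ℕ) => S x.1 B x.2 = true) :
    UD fun B (x : ℕ × (ℕ × ℕ)) => Sj O S x.1 x.2.1 B x.2.2 = true := by
  refine UD.sub (F := fun B (c : ℕ) => join (evn B) (up O c (odd B))) ?_ hS
  exact join_UD (F := fun B (_ : ℕ) => evn B) (G := fun B (c : ℕ) => up O c (odd B))
    ((UD.evn UD.query).comp (f := fun x : ℕ × ℕ => x.2) Computable.snd)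
    (UD.odd' (up_UD hO))

theorem ff_UD (hO : Computable₂ O) (hJ : Computable J)
    (hT : UD fun B (x : ℕ × ℕ) => T x.1 B x.2 = true)
    (hS : UD fun B (x : ℕ × ℕ) => S x.1 B x.2 = true) :
    UD fun B (x : ℕ × ℕ) => ff O J T S x.1.unpair.1 x.1.unpair.2 B x.2 = true := by
  have hu : Primrec fun x : ℕ × ℕ => x.1.unpair := Primrec.unpair.comp Primrec.fst
  have hj : UD fun (_ : ℕ → Bool) (x : ℕ × ℕ) => J x.1.unpair.1 = true :=
    UD.of_comp (p := fun b : Bool => b = true)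
      (Primrec.eq.comp Primrec.id (Primrec.const true)) (hJ.comp (Primrec.fst.comp hu).to_comp)
  have h0 : UD fun (_ : ℕ → Bool) (x : ℕ × ℕ) => x.1.unpair.2 = 0 :=
    UD.of_prim (Primrec.eq.comp (Primrec.snd.comp hu) (Primrec.const 0))
  have h1 : UD fun B (x : ℕ × ℕ) => T x.1.unpair.1 (evn B) x.2 = true :=
    (UD.evn hT).comp (f := fun x : ℕ × ℕ => (x.1.unpair.1, x.2))
      ((Primrec.fst.comp hu).pair Primrec.snd).to_comp
  have h2 : UD fun B (x : ℕ × ℕ) => Sj O S x.1.unpair.1 (x.1.unpair.2 - 1) B x.2 = true :=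
    (Sj_UD hO hS).comp (f := fun x : ℕ × ℕ => (x.1.unpair.1, (x.1.unpair.2 - 1, x.2)))
      ((Primrec.fst.comp hu).pair
        ((Primrec.nat_sub.comp (Primrec.snd.comp hu) (Primrec.const 1)).pair
          Primrec.snd)).to_comp
  have h3 : UD fun B (x : ℕ × ℕ) => Su O S x.1.unpair.1 x.1.unpair.2 (odd B) x.2 = true :=
    (UD.odd' (Su_UD hO hS)).comp (f := fun x : ℕ × ℕ => (x.1.unpair.1, (x.1.unpair.2, x.2)))
      ((Primrec.fst.comp hu).pair ((Primrec.snd.comp hu).pair Primrec.snd)).to_comp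
  have h4 : UD fun B (x : ℕ × ℕ) => evn B x.2 = true :=
    (UD.evn UD.query).comp (f := fun x : ℕ × ℕ => x.2) Computable.snd
  have h5 := UD.or (UD.and hj (UD.or (UD.and h0 h1) (UD.and h0.not h2)))
    (UD.and hj.not (UD.or (UD.and h4 h3.not) (UD.and h4.not h3)))
  refine h5.of_eq fun B x => ?_
  rcases x with ⟨b, y⟩
  simp only
  by_cases hJi : J b.unpair.1 = true
  · rw [ff_true hJi]
    rcases Nat.eq_zero_or_pos b.unpair.2 with h6 | h6
    · simp [hJi, h6, fa]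
    · obtain ⟨l, hl⟩ : ∃ l, b.unpair.2 = l + 1 := ⟨b.unpair.2 - 1, by omega⟩
      simp [hJi, hl, fa]
  · rw [ff_false hJi]
    unfold tr
    cases evn B y <;> cases Su O S b.unpair.1 b.unpair.2 (odd B) y <;> simp [hJi]

end ff

/-! ### the lists -/

theorem CC_prim : Primrec₂ CC := by
  have h0 : Primrec fun y : ℕ × (ℕ × ℕ) => y.2.2 := Primrec.snd.comp Primrec.snd
  have h1 : Primrec fun y : ℕ × (ℕ × ℕ) =>
      y.2.2 + bl (Nat.pair y.1 y.2.2) (3 * gK y.1 + 1 + 2 ^ (y.1 * y.2.2)) + 1 := by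
    refine Primrec.succ.comp (Primrec.nat_add.comp h0 (bl_prim.comp
      (Primrec₂.natPair.comp Primrec.fst h0) (Primrec.nat_add.comp (Primrec.succ.comp
        (Primrec.nat_mul.comp (Primrec.const 3) (gK_prim.comp Primrec.fst)))
        (primrec_pow.comp (Primrec.const 2) (Primrec.nat_mul.comp Primrec.fst h0)))))
  have h2 : Primrec fun y : ℕ × (ℕ × ℕ) =>
      (y.2.2 + bl (Nat.pair y.1 y.2.2) (3 * gK y.1 + 1 + 2 ^ (y.1 * y.2.2)) + 1) ^ 2 :=
    (Primrec.nat_mul.comp h1 h1).of_eq fun m => (sq _).symm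
  have h3 : Primrec₂ fun (n s : ℕ) => (Nat.rec 1 (fun _ r =>
      (r + bl (Nat.pair n r) (3 * gK n + 1 + 2 ^ (n * r)) + 1) ^ 2) s : ℕ) :=
    Primrec.nat_rec (f := fun _ : ℕ => 1) (g := fun (n : ℕ) (y : ℕ × ℕ) =>
      (y.2 + bl (Nat.pair n y.2) (3 * gK n + 1 + 2 ^ (n * y.2)) + 1) ^ 2)
      (Primrec.const 1) h2
  refine h3.of_eq fun n s => ?_
  induction s with
  | zero => rfl
  | succ s ih => simp only [CC, ← ih]

section words

variable {β : Type} [Primcodable β] {r : (ℕ → Bool) → β → ℕ → Prop}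
  (hr : UD fun W (x : β × ℕ) => r W x.1 x.2) {q n : β → ℕ} {D : β → List ℕ}
  (hq : Computable q) (hn : Computable n) (hD : Computable D)

theorem hlt_prim : PrimrecPred fun x : ℕ × ℕ => x.1 < x.2 :=
  Primrec.nat_lt.comp Primrec.fst Primrec.snd

theorem hle_prim : PrimrecPred fun x : ℕ × ℕ => x.1 ≤ x.2 :=
  Primrec.nat_le.comp Primrec.fst Primrec.snd

include hr hq hn hD

theorem Ok_r_UD : UD fun W (x : β) => Ok (fun _ => q x) (fun _ _ u => r W x u) (n x)
    (fun _ => false) (D x) := by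
  have hb : Computable fun y : β × ℕ => ((D y.1).getD y.2 0).unpair :=
    Primrec.unpair.to_comp.comp (Computable₂.comp (f := fun (l : List ℕ) (t : ℕ) => l.getD t 0)
      (Primrec.list_getD 0).to_comp (hD.comp Computable.fst) Computable.snd)
  have h1 : UD fun W (x : β) => ∀ t < (D x).length,
      ((D x).getD t 0).unpair.1 < n x ∧ ((D x).getD t 0).unpair.2 < q x ∧
        r W x ((D x).getD t 0).unpair.2 := by
    refine UD.all_lt (α := β) (p := fun W x t => ((D x).getD t 0).unpair.1 < n x ∧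
      ((D x).getD t 0).unpair.2 < q x ∧ r W x ((D x).getD t 0).unpair.2)
      (f := fun x => (D x).length) (UD.and ?_ (UD.and ?_ ?_))
      (Primrec.list_length.to_comp.comp hD)
    · exact UD.of_comp hlt_prim ((Computable.fst.comp hb).pair (hn.comp Computable.fst))
    · exact UD.of_comp hlt_prim ((Computable.snd.comp hb).pair (hq.comp Computable.fst))
    · exact hr.comp (f := fun y : β × ℕ => (y.1, ((D y.1).getD y.2 0).unpair.2))
        (Computable.fst.pair (Computable.snd.comp hb))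
  refine h1.of_eq fun B x => ?_
  unfold Ok
  constructor
  · intro h b hb'
    obtain ⟨t, ht, rfl⟩ := List.getElem_of_mem hb'
    have := h t ht
    rwa [List.getD_eq_getElem _ _ ht] at this
  · intro h t ht
    rw [List.getD_eq_getElem _ _ ht]
    exact h _ (List.getElem_mem ht)

theorem fOk_r_UD {a : β → ℕ} (ha : Computable a) : UD fun W (x : β) =>
    fOk (fun _ => q x) (fun _ _ u => r W x u) (n x) (a x) (fun _ => false) (D x) := by
  have hadd : ∀ {γ : Type} [Primcodable γ] {f g : γ → ℕ}, Computable f → Computable g →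
      Computable fun x => f x + g x := fun {γ} _ {f g} h1 h2 =>
    Computable₂.comp (f := fun a b : ℕ => a + b) Primrec.nat_add.to_comp h1 h2
  have hsub : ∀ {γ : Type} [Primcodable γ] {f g : γ → ℕ}, Computable f → Computable g →
      Computable fun x => f x - g x := fun {γ} _ {f g} h1 h2 =>
    Computable₂.comp (f := fun a b : ℕ => a - b) Primrec.nat_sub.to_comp h1 h2
  have hl : Computable fun x : β => (D x).length := Primrec.list_length.to_comp.comp hD
  have hg : Computable fun x : β => gK (n x) := gK_prim.to_comp.comp hn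
  refine UD.ex_lt (α := β) (p := fun W x i => i ≤ (D x).length ∧
    (((D x).length - i) + (a x - i) ≤ gK (n x) ∧ ∀ t < (D x).length,
      (t < (D x).length - i → (1 ≤ ((D x).getD t 0).unpair.1 ∧ ((D x).getD t 0).unpair.1 ≤ n x) ∧
        ((D x).getD t 0).unpair.2 < q x ∧ r W x ((D x).getD t 0).unpair.2) ∧
      ((D x).length - i ≤ t → (D x).getD t 0 = 0)))
    (f := fun x => a x + gK (n x) + 2) (UD.and ?_ (UD.and ?_ ?_))
    (hadd (hadd ha hg) (Computable.const 2))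
  · exact UD.of_comp hle_prim (Computable.snd.pair (hl.comp Computable.fst))
  · exact UD.of_comp hle_prim ((hadd (hsub (hl.comp Computable.fst) Computable.snd)
      (hsub (ha.comp Computable.fst) Computable.snd)).pair (hg.comp Computable.fst))
  · refine UD.all_lt (α := β × ℕ) (p := fun W x t =>
      (t < (D x.1).length - x.2 → (1 ≤ ((D x.1).getD t 0).unpair.1 ∧
        ((D x.1).getD t 0).unpair.1 ≤ n x.1) ∧
        ((D x.1).getD t 0).unpair.2 < q x.1 ∧ r W x.1 ((D x.1).getD t 0).unpair.2) ∧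
      ((D x.1).length - x.2 ≤ t → (D x.1).getD t 0 = 0))
      (f := fun x => (D x.1).length) ?_ (hl.comp Computable.fst)
    have h1 : Computable fun y : (β × ℕ) × ℕ => (D y.1.1).getD y.2 0 :=
      Computable₂.comp (f := fun (l : List ℕ) (t : ℕ) => l.getD t 0)
        (Primrec.list_getD 0).to_comp (hD.comp (Computable.fst.comp Computable.fst))
        Computable.snd
    have hb : Computable fun y : (β × ℕ) × ℕ => ((D y.1.1).getD y.2 0).unpair :=
      Primrec.unpair.to_comp.comp h1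
    have hli : Computable fun y : (β × ℕ) × ℕ => (D y.1.1).length - y.1.2 :=
      hsub (hl.comp (Computable.fst.comp Computable.fst)) (Computable.snd.comp Computable.fst)
    refine UD.and (UD.imp ?_ (UD.and (UD.and ?_ ?_) (UD.and ?_ ?_))) (UD.imp ?_ ?_)
    · exact UD.of_comp hlt_prim (Computable.snd.pair hli)
    · exact UD.of_comp hle_prim ((Computable.const 1).pair (Computable.fst.comp hb))
    · exact UD.of_comp hle_prim ((Computable.fst.comp hb).pair
        (hn.comp (Computable.fst.comp Computable.fst)))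
    · exact UD.of_comp hlt_prim ((Computable.snd.comp hb).pair
        (hq.comp (Computable.fst.comp Computable.fst)))
    · exact hr.comp (f := fun y : (β × ℕ) × ℕ => (y.1.1, ((D y.1.1).getD y.2 0).unpair.2))
        ((Computable.fst.comp Computable.fst).pair (Computable.snd.comp hb))
    · exact UD.of_comp hle_prim (hli.pair Computable.snd)
    · exact UD.of_comp (p := fun b : ℕ => b = 0) (Primrec.eq.comp Primrec.id (Primrec.const 0)) h1

end words

section lists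

variable {J : ℕ → Bool} {T : ℕ → (ℕ → Bool) → ℕ → Bool}

theorem Fst_T_UD (hT : UD fun B (x : ℕ × ℕ) => T x.1 B x.2 = true) :
    UD fun B (x : ℕ × (ℕ × ℕ)) => Fst (ob (T x.1) (col x.1 B)) x.2.1 x.2.2 := by
  have h0 : UD fun B (x : ℕ × ℕ) => (fun i _ => T i) x.1.unpair.1 x.1.unpair.2 B x.2 = true :=
    hT.comp (f := fun x : ℕ × ℕ => (x.1.unpair.1, x.2))
      ((Primrec.fst.comp (Primrec.unpair.comp Primrec.fst)).pair Primrec.snd).to_comp
  have h1 := iter_i_UD (fun i (_ : ℕ) => T i) h0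
  have h2 : UD fun B (x : ℕ × (ℕ × ℕ)) =>
      Fst (uc fun k => (T x.1)^[k.unpair.1] B k.unpair.2) x.2.1 x.2.2 :=
    UD.sub (F := fun B (i : ℕ) => fun k => (T i)^[k.unpair.1] B k.unpair.2) h1 Fst_UD
  have h3 : UD fun B (x : ℕ × (ℕ × ℕ)) => Fst (ob (T x.1) B) x.2.1 x.2.2 := by
    refine h2.of_eq fun B x => ?_
    have h4 : (uc fun k => (T x.1)^[k.unpair.1] B k.unpair.2) = ob (T x.1) B := by
      funext i q
      simp [uc, ob]
    rw [h4]
  exact (UD.sub (F := fun B (i : ℕ) => col i B) col_UD h3).comp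
    (f := fun x : ℕ × (ℕ × ℕ) => (x.1, x)) (Computable.fst.pair Computable.id)

theorem RR_UD {σ : ℕ → ℕ → ℕ} (hσ : Computable₂ σ) (hJ : Computable J)
    (hT : UD fun B (x : ℕ × ℕ) => T x.1 B x.2 = true) :
    UD fun B (x : ℕ × (ℕ × (ℕ × ℕ))) => RR σ J T x.2.1 x.1 x.2.2.1 B x.2.2.2 := by
  refine UD.iter' (Y := fun B s (a : ℕ × (ℕ × ℕ)) => RR σ J T a.1 s a.2.1 B a.2.2)
    (S := fun W (x : ℕ × (ℕ × (ℕ × ℕ))) =>
      (x.2.2.2.unpair.2 < CC x.2.1 x.1 ∧
        rd W ((x.2.1, (x.2.2.1 + 1, x.2.2.2.unpair.2)) : ℕ × (ℕ × ℕ))) ∧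
      ((J (σ x.2.1 x.2.2.1) = true ∧ ∃ a < gK x.2.1 + 1,
        Fst (ob (T (σ x.2.1 x.2.2.1)) (col (σ x.2.1 x.2.2.1) (evn W))) x.2.1 a ∧
        fOk (fun _ => CC x.2.1 x.1)
          (fun _ _ u => rd W ((x.2.1, (x.2.2.1 + 1, u)) : ℕ × (ℕ × ℕ))) x.2.1 a
          (fun _ => false) (dk x.2.2.2.unpair.1)) ∨
      (¬ J (σ x.2.1 x.2.2.1) = true ∧
        (dk x.2.2.2.unpair.1).length ≤ 2 ^ (x.2.1 * CC x.2.1 x.1) ∧
        Ok (fun _ => CC x.2.1 x.1)
          (fun _ _ u => rd W ((x.2.1, (x.2.2.1 + 1, u)) : ℕ × (ℕ × ℕ))) x.2.1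
          (fun _ => false) (dk x.2.2.2.unpair.1)))) ?_ ?_ ?_
  · exact UD.of_prim (Primrec.eq.comp (Primrec.snd.comp Primrec.snd) (Primrec.const 0))
  · have hs : Primrec fun x : ℕ × (ℕ × (ℕ × ℕ)) => x.1 := Primrec.fst
    have hn : Primrec fun x : ℕ × (ℕ × (ℕ × ℕ)) => x.2.1 := Primrec.fst.comp Primrec.snd
    have hi : Primrec fun x : ℕ × (ℕ × (ℕ × ℕ)) => x.2.2.1 :=
      Primrec.fst.comp (Primrec.snd.comp Primrec.snd)
    have hk : Primrec fun x : ℕ × (ℕ × (ℕ × ℕ)) => x.2.2.2.unpair :=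
      Primrec.unpair.comp (Primrec.snd.comp (Primrec.snd.comp Primrec.snd))
    have hC : Primrec fun x : ℕ × (ℕ × (ℕ × ℕ)) => CC x.2.1 x.1 := CC_prim.comp hn hs
    have hD : Primrec fun x : ℕ × (ℕ × (ℕ × ℕ)) => dk x.2.2.2.unpair.1 :=
      dk_prim.comp (Primrec.fst.comp hk)
    have hc : Computable fun x : ℕ × (ℕ × (ℕ × ℕ)) => σ x.2.1 x.2.2.1 :=
      hσ.comp hn.to_comp hi.to_comp
    have hj : UD fun (_ : ℕ → Bool) (x : ℕ × (ℕ × (ℕ × ℕ))) => J (σ x.2.1 x.2.2.1) = true :=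
      UD.of_comp (p := fun b : Bool => b = true)
        (Primrec.eq.comp Primrec.id (Primrec.const true)) (hJ.comp hc)
    have hrd : UD fun W (y : (ℕ × (ℕ × (ℕ × ℕ))) × ℕ) =>
        rd W ((y.1.2.1, (y.1.2.2.1 + 1, y.2)) : ℕ × (ℕ × ℕ)) :=
      (UD.rd (α := ℕ × (ℕ × ℕ))).comp (f := fun y : (ℕ × (ℕ × (ℕ × ℕ))) × ℕ =>
        (y.1.2.1, (y.1.2.2.1 + 1, y.2)))
        ((hn.comp Primrec.fst).pair ((Primrec.succ.comp (hi.comp Primrec.fst)).pair
          Primrec.snd)).to_comp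
    refine UD.and (UD.and ?_ ?_) (UD.or (UD.and hj ?_) (UD.and hj.not (UD.and ?_ ?_)))
    · exact UD.of_comp hlt_prim ((Primrec.snd.comp hk).pair hC).to_comp
    · exact hrd.comp (f := fun x : ℕ × (ℕ × (ℕ × ℕ)) => (x, x.2.2.2.unpair.2))
        (Primrec.id.pair (Primrec.snd.comp hk)).to_comp
    · refine UD.ex_lt (α := ℕ × (ℕ × (ℕ × ℕ))) (p := fun W x a =>
        Fst (ob (T (σ x.2.1 x.2.2.1)) (col (σ x.2.1 x.2.2.1) (evn W))) x.2.1 a ∧
        fOk (fun _ => CC x.2.1 x.1)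
          (fun _ _ u => rd W ((x.2.1, (x.2.2.1 + 1, u)) : ℕ × (ℕ × ℕ))) x.2.1 a
          (fun _ => false) (dk x.2.2.2.unpair.1)) (f := fun x => gK x.2.1 + 1)
        (UD.and ?_ ?_) (Primrec.succ.comp (gK_prim.comp hn)).to_comp
      · exact (UD.evn (Fst_T_UD hT)).comp (f := fun y : (ℕ × (ℕ × (ℕ × ℕ))) × ℕ =>
          (σ y.1.2.1 y.1.2.2.1, (y.1.2.1, y.2)))
          ((hc.comp Computable.fst).pair
            (((hn.comp Primrec.fst).pair Primrec.snd).to_comp))
      · exact fOk_r_UD (β := (ℕ × (ℕ × (ℕ × ℕ))) × ℕ)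
          (r := fun W y u => rd W ((y.1.2.1, (y.1.2.2.1 + 1, u)) : ℕ × (ℕ × ℕ)))
          (q := fun y => CC y.1.2.1 y.1.1) (n := fun y => y.1.2.1)
          (D := fun y => dk y.1.2.2.2.unpair.1) (a := fun y => y.2)
          (hrd.comp (f := fun z : ((ℕ × (ℕ × (ℕ × ℕ))) × ℕ) × ℕ => (z.1.1, z.2))
            ((Computable.fst.comp Computable.fst).pair Computable.snd))
          (hC.comp Primrec.fst).to_comp (hn.comp Primrec.fst).to_comp
          (hD.comp Primrec.fst).to_comp Computable.snd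
    · exact UD.of_comp hle_prim ((Primrec.list_length.comp hD).pair
        (primrec_pow.comp (Primrec.const 2) (Primrec.nat_mul.comp hn hC))).to_comp
    · exact Ok_r_UD (β := ℕ × (ℕ × (ℕ × ℕ)))
        (r := fun W x u => rd W ((x.2.1, (x.2.2.1 + 1, u)) : ℕ × (ℕ × ℕ)))
        (q := fun x => CC x.2.1 x.1) (n := fun x => x.2.1) (D := fun x => dk x.2.2.2.unpair.1)
        hrd hC.to_comp hn.to_comp hD.to_comp
  · rintro B s ⟨n, i, k⟩
    simp only [rd_join, evn_join]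
    exact Iff.rfl

end lists

end Pool.Agent.V7H75.TX.P
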