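import Pool.Agent.V7H67.IB.Main

set_option autoImplicit false

/-!
Changes of the part `A` of an oracle `A ⊕ Z` by maps which depend on `Z`: words and orbits.
-/

namespace Pool.Agent.V7H75.TX

open Encodable Pool.Agent.Helper227
open Pool.Agent.V7H75.HF (Cl)

/-- one step: `A` is changed by one of the first `n` maps, with a parameter `Z` in `P` -/
def St (α : ℕ → (ℕ → Bool) → ℕ → Bool) (n : ℕ) (P : Set (ℕ → Bool)) (A B : ℕ → Bool) : Prop :=
  ∃ l < n, ∃ Z ∈ P, B = α l (join A Z)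

/-- the orbit of `A`: all that can be reached from `A` by steps -/
def Orb (α : ℕ → (ℕ → Bool) → ℕ → Bool) (n : ℕ) (P : Set (ℕ → Bool)) (A : ℕ → Bool) :
    Set (ℕ → Bool) := {B | Relation.ReflTransGen (St α n P) A B}

/-- the maps of the word `D` are applied to `A`, the last one first -/
def ap (α T : ℕ → (ℕ → Bool) → ℕ → Bool) (D : List ℕ) (Z A : ℕ → Bool) : ℕ → Bool :=
  D.foldr (fun b r => α b.unpair.1 (join r (T b.unpair.2 Z))) A

section basic

variable {α T : ℕ → (ℕ → Bool) → ℕ → Bool}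

theorem ap_append (D D' : List ℕ) (Z A : ℕ → Bool) :
    ap α T (D ++ D') Z A = ap α T D Z (ap α T D' Z A) := by
  unfold ap
  exact List.foldr_append

theorem ap_cons (b : ℕ) (D : List ℕ) (Z A : ℕ → Bool) :
    ap α T (b :: D) Z A = α b.unpair.1 (join (ap α T D Z A) (T b.unpair.2 Z)) := rfl

variable {c : ℕ → ℕ} {R : ℕ → (ℕ → Bool) → ℕ → Prop}

/-- a word of the level `n` -/
def Ok (c : ℕ → ℕ) (R : ℕ → (ℕ → Bool) → ℕ → Prop) (n : ℕ) (Z : ℕ → Bool) (D : List ℕ) : Prop :=
  ∀ b ∈ D, b.unpair.1 < n ∧ b.unpair.2 < c n ∧ R n Z b.unpair.2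

theorem ap_mem {n : ℕ} {Z A : ℕ → Bool} {D : List ℕ} (h : Ok c R n Z D) :
    ap α T D Z A ∈ Orb α n (Cl c T R n Z) A := by
  induction D with
  | nil => exact Relation.ReflTransGen.refl
  | cons b D ih =>
    have h1 := ih fun b' hb' => h b' (List.mem_cons_of_mem _ hb')
    have h2 := h b List.mem_cons_self
    exact Relation.ReflTransGen.tail h1 ⟨b.unpair.1, h2.1, T b.unpair.2 Z,
      ⟨b.unpair.2, h2.2.1, h2.2.2, rfl⟩, rfl⟩

theorem exists_word' {n : ℕ} {Z A B : ℕ → Bool} (h : B ∈ Orb α n (Cl c T R n Z) A) :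
    ∃ D, Ok c R n Z D ∧ B = ap α T D Z A := by
  induction h with
  | refl => exact ⟨[], by simp [Ok], rfl⟩
  | tail _ h2 ih =>
    obtain ⟨D, h3, rfl⟩ := ih
    obtain ⟨l, hl, p, ⟨u, hu, hu', rfl⟩, rfl⟩ := h2
    refine ⟨Nat.pair l u :: D, ?_, ?_⟩
    · intro b hb
      rcases List.mem_cons.1 hb with h4 | h4
      · rw [h4, Nat.unpair_pair]
        exact ⟨hl, hu, hu'⟩
      · exact h3 b h4
    · rw [ap_cons, Nat.unpair_pair]

theorem exists_word {n N : ℕ} {Z A B : ℕ → Bool} (hN : (Orb α n (Cl c T R n Z) A).encard ≤ N)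
    (h : B ∈ Orb α n (Cl c T R n Z) A) :
    ∃ D, D.length ≤ N ∧ Ok c R n Z D ∧ B = ap α T D Z A := by
  classical
  have hex : ∃ k, ∃ D : List ℕ, D.length = k ∧ Ok c R n Z D ∧ B = ap α T D Z A := by
    obtain ⟨D, h1, h2⟩ := exists_word' h
    exact ⟨_, D, rfl, h1, h2⟩
  obtain ⟨D, h1, h2, h3⟩ := Nat.find_spec hex
  refine ⟨D, ?_, h2, h3⟩
  have hsub : ∀ s, Ok c R n Z (D.drop s) := fun s b hb => h2 b (List.mem_of_mem_drop hb)
  have hne : ∀ s t, s < t → t ≤ D.length → ap α T (D.drop s) Z A ≠ ap α T (D.drop t) Z A := by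
    intro s t hst ht he
    refine Nat.find_min hex (m := (D.take s ++ D.drop t).length) ?_
      ⟨D.take s ++ D.drop t, rfl, ?_, ?_⟩
    · rw [← h1, List.length_append, List.length_take, List.length_drop]
      omega
    · intro b hb
      rcases List.mem_append.1 hb with h4 | h4
      · exact h2 b (List.mem_of_mem_take h4)
      · exact hsub t b h4
    · rw [ap_append, ← he, ← ap_append, List.take_append_drop]
      exact h3
  have hinj : Set.InjOn (fun s => ap α T (D.drop s) Z A) (Finset.range (D.length + 1) : Set ℕ) := by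
    intro s hs t ht he
    rw [Finset.coe_range, Set.mem_Iio] at hs ht
    rcases lt_trichotomy s t with h4 | h4 | h4
    · exact absurd he (hne s t h4 (by omega))
    · exact h4
    · exact absurd he.symm (hne t s h4 (by omega))
  have h4 : (((Finset.range (D.length + 1)).image fun s => ap α T (D.drop s) Z A :
      Finset (ℕ → Bool)) : Set (ℕ → Bool)) ⊆ Orb α n (Cl c T R n Z) A := by
    intro B' hB'
    rw [Finset.mem_coe, Finset.mem_image] at hB'
    obtain ⟨s, -, rfl⟩ := hB'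
    exact ap_mem (hsub s)
  have h5 := (Set.encard_le_encard h4).trans hN
  rw [Set.encard_coe_eq_coe_finsetCard, Finset.card_image_of_injOn hinj, Finset.card_range] at h5
  have h6 : D.length + 1 ≤ N := by exact_mod_cast h5
  omega

end basic

end Pool.Agent.V7H75.TX
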