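import Pool.Agent.V7H75.TX.Ext
import Pool.Agent.V7H75.TX.Defs

set_option autoImplicit false

/-!
Infinitely many truth-table functionals which act on different columns of the oracle.
-/

namespace Pool.Agent.V7H75.TX

open Encodable Pool.Agent.Helper227
open Pool.Agent.V7H75.HF (Cl UD U1 evn odd evn_join odd_join rd rd_join cd cd_encode)
open Pool.Agent.V7H67.IB (Sys dk dk_encode dk_zero dk_prim bl bl_mono bl_prim encode_le_bl Tk
  Tk_comp Ap Ap_UD Rk ck ck_comp mk mk_comp sys lists_eq Lt Fst Fst_UD uc ob gK gK_prim Ok_UD)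

theorem col_ext {X Y : ℕ → Bool} (h : ∀ i, col i X = col i Y) : X = Y := by
  funext z
  have h1 := congrFun (h z.unpair.1) z.unpair.2
  unfold col at h1
  rwa [Nat.pair_unpair] at h1

variable (L : ℕ → ℕ → (ℕ → Bool) → ℕ → Bool)

/-- words for the columns -/
def sT (k : ℕ) (X : ℕ → Bool) : ℕ → Bool := fun z =>
  Tk (L z.unpair.1) ((dk k).getD z.unpair.1 0) (col z.unpair.1 X) z.unpair.2

/-- the multiplication of the indices -/
def sm (j k : ℕ) : ℕ := encode ((List.range (max (dk j).length (dk k).length)).map fun i =>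
  mk ((dk j).getD i 0) ((dk k).getD i 0))

/-- the bounds -/
def sc (n : ℕ) : ℕ := bl (ck n) n + 1

/-- the indices of the members of the list -/
def sR (n : ℕ) (X : ℕ → Bool) (k : ℕ) : Prop :=
  (dk k).length = n ∧ ∀ i < n, (dk k).getD i 0 < ck n ∧ Rk (L i 0) n (col i X) ((dk k).getD i 0)

section lists

variable {L}

theorem col_sT (i k : ℕ) (X : ℕ → Bool) :
    col i (sT L k X) = Tk (L i) ((dk k).getD i 0) (col i X) := by
  funext y
  unfold col sT
  rw [Nat.unpair_pair]
  rfl

theorem Tk_zero (M : ℕ → (ℕ → Bool) → ℕ → Bool) (X : ℕ → Bool) : Tk M 0 X = X := by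
  unfold Tk
  rw [dk_zero]
  rfl

theorem mem_sCl {n : ℕ} {X Y : ℕ → Bool} : Y ∈ Cl sc (sT L) (sR L) n X ↔
    (∀ i < n, col i Y ∈ Cl ck (Tk (L i)) (Rk (L i 0)) n (col i X)) ∧
      ∀ i, n ≤ i → col i Y = col i X := by
  constructor
  · rintro ⟨k, -, ⟨h1, h2⟩, rfl⟩
    refine ⟨fun i hi => ?_, fun i hi => ?_⟩
    · rw [col_sT]
      exact ⟨_, (h2 i hi).1, (h2 i hi).2, rfl⟩
    · rw [col_sT, List.getD_eq_default _ _ (by omega), Tk_zero]
  · rintro ⟨h1, h2⟩
    have h3 : ∀ i, ∃ k, i < n → (k < ck n ∧ Rk (L i 0) n (col i X) k ∧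
        col i Y = Tk (L i) k (col i X)) := by
      intro i
      by_cases hi : i < n
      · obtain ⟨k, h4, h5, h6⟩ := h1 i hi
        exact ⟨k, fun _ => ⟨h4, h5, h6⟩⟩
      · exact ⟨0, fun h => absurd h hi⟩
    choose g hg using h3
    have hD : ∀ i < n, ((List.range n).map g).getD i 0 = g i := by
      intro i hi
      rw [List.getD_eq_getElem _ _ (by simpa using hi)]
      simp
    refine ⟨encode ((List.range n).map g), ?_, ⟨?_, fun i hi => ?_⟩, ?_⟩
    · have h4 := encode_le_bl (ck n) ((List.range n).map g) fun b hb => by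
        rw [List.mem_map] at hb
        obtain ⟨i, hi, rfl⟩ := hb
        exact (hg i (List.mem_range.1 hi)).1.le
      rw [List.length_map, List.length_range] at h4
      unfold sc
      omega
    · rw [dk_encode]
      simp
    · rw [dk_encode, hD i hi]
      exact ⟨(hg i hi).1, (hg i hi).2.1⟩
    · refine col_ext fun i => ?_
      rw [col_sT, dk_encode]
      by_cases hi : i < n
      · rw [hD i hi]
        exact (hg i hi).2.2
      · rw [List.getD_eq_default _ _ (by simpa using hi), Tk_zero]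
        exact h2 i (by omega)

theorem sm_getD (j k i : ℕ) : (dk (sm j k)).getD i 0 =
    if i < max (dk j).length (dk k).length then mk ((dk j).getD i 0) ((dk k).getD i 0) else 0 := by
  unfold sm
  rw [dk_encode]
  by_cases hi : i < max (dk j).length (dk k).length
  · rw [if_pos hi, List.getD_eq_getElem _ _ (by simpa using hi)]
    simp
  · rw [if_neg hi, List.getD_eq_default _ _ (by simpa using hi)]

theorem ssys : Sys sm sc (sT L) (sR L) where
  comp j k X := by
    refine col_ext fun i => ?_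
    rw [col_sT, col_sT, col_sT, sm_getD]
    by_cases hi : i < max (dk j).length (dk k).length
    · rw [if_pos hi, Tk_comp]
    · rw [if_neg hi, List.getD_eq_default _ _ (by omega), List.getD_eq_default _ _ (by omega),
        Tk_zero, Tk_zero]
  one X := by
    refine col_ext fun i => ?_
    rw [col_sT, dk_zero]
    exact Tk_zero _ _
  self n X := mem_sCl.2 ⟨fun i _ => (sys (L i)).self n (col i X), fun _ _ => rfl⟩

theorem sCl_eq {n : ℕ} {X Y : ℕ → Bool}
    (h1 : ∀ i < n, Cl ck (Tk (L i)) (Rk (L i 0)) n (col i X) =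
      Cl ck (Tk (L i)) (Rk (L i 0)) n (col i Y)) (h2 : ∀ i, n ≤ i → col i X = col i Y) :
    Cl sc (sT L) (sR L) n X = Cl sc (sT L) (sR L) n Y := by
  ext B
  rw [mem_sCl, mem_sCl]
  refine and_congr (forall_congr' fun i => forall_congr' fun hi => ?_)
    (forall_congr' fun i => forall_congr' fun hi => ?_)
  · rw [h1 i hi]
  · rw [h2 i hi]

theorem s_link {X Y : ℕ → Bool} {i l : ℕ} (h1 : ∀ j, j ≠ i → col j Y = col j X)
    (h2 : col i Y = L i 0 (col i X)) (h3 : L i (l + 1) (col i Y) = col i X) :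
    ∃ N, ∀ n ≥ N, Cl sc (sT L) (sR L) n X = Cl sc (sT L) (sR L) n Y := by
  rw [h2] at h3
  obtain ⟨N, hN⟩ := lists_eq (L := L i) (col i X) l h3
  refine ⟨max N (i + 1), fun n hn => sCl_eq (fun j _ => ?_) fun j hj => ?_⟩
  · by_cases hji : j = i
    · subst hji
      rw [h2]
      exact hN n ((le_max_left _ _).trans hn)
    · rw [h1 j hji]
  · exact (h1 j (by omega)).symm

end lists

/-! ### computability -/

section eff

theorem Ap_replicate' (M : ℕ → (ℕ → Bool) → ℕ → Bool) (b i : ℕ) (X : ℕ → Bool) :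
    Ap M (List.replicate i b) X = (M b)^[i] X := by
  induction i with
  | zero => rfl
  | succ i ih =>
    rw [List.replicate_succ, Function.iterate_succ_apply', ← ih]
    rfl

theorem Ap_map (i : ℕ) (w : List ℕ) (X : ℕ → Bool) :
    Ap (fun b => L b.unpair.1 b.unpair.2) (w.map fun b => Nat.pair i b) X = Ap (L i) w X := by
  induction w with
  | nil => rfl
  | cons b w ih =>
    show L (Nat.pair i b).unpair.1 (Nat.pair i b).unpair.2 (Ap _ _ X) = L i b (Ap (L i) w X)
    rw [Nat.unpair_pair, ih]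

variable (hL : UD fun B (x : ℕ × ℕ) => L x.1.unpair.1 x.1.unpair.2 B x.2 = true)

include hL

theorem ap_i_UD : UD fun B (x : ℕ × (List ℕ × ℕ)) => Ap (L x.1) x.2.1 B x.2.2 = true := by
  have h1 := Ap_UD (L := fun b => L b.unpair.1 b.unpair.2) hL
  refine (h1.comp (f := fun x : ℕ × (List ℕ × ℕ) =>
    (x.2.1.map (fun b => Nat.pair x.1 b), x.2.2)) ?_).of_eq fun B x => ?_
  · refine (Primrec.pair (Primrec.list_map (Primrec.fst.comp Primrec.snd)
      (Primrec₂.natPair.comp (Primrec.fst.comp Primrec.fst) Primrec.snd).to₂)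
      (Primrec.snd.comp Primrec.snd)).to_comp
  · rw [Ap_map]

theorem iter_i_UD : UD fun B (x : ℕ × ℕ) =>
    (L x.1 0)^[x.2.unpair.1] B x.2.unpair.2 = true := by
  have h1 := Ap_UD (L := fun b => L b.unpair.1 b.unpair.2) hL
  refine (h1.comp (f := fun x : ℕ × ℕ =>
    ((List.range x.2.unpair.1).map (fun _ => Nat.pair x.1 0), x.2.unpair.2)) ?_).of_eq
      fun B x => ?_
  · refine (Primrec.pair (Primrec.list_map (Primrec.list_range.comp
      (Primrec.fst.comp (Primrec.unpair.comp Primrec.snd)))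
      (Primrec₂.natPair.comp (Primrec.fst.comp Primrec.fst) (Primrec.const 0)).to₂)
      (Primrec.snd.comp (Primrec.unpair.comp Primrec.snd))).to_comp
  · simp only [List.map_const', List.length_range]
    rw [Ap_replicate']
    simp only [Nat.unpair_pair]

theorem Rk_i_UD : UD fun B (x : ℕ × (ℕ × ℕ)) => Rk (L x.1 0) x.2.1 B x.2.2 := by
  have h2 : UD fun B (x : ℕ × (ℕ × ℕ)) =>
      Fst (uc fun k => (L x.1 0)^[k.unpair.1] B k.unpair.2) x.2.1 x.2.2 :=
    UD.sub (F := fun B (i : ℕ) => fun k => (L i 0)^[k.unpair.1] B k.unpair.2) (iter_i_UD L hL)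
      Fst_UD
  have h3 : UD fun B (x : ℕ × (ℕ × ℕ)) => Fst (ob (L x.1 0) B) x.2.1 x.2.2 := by
    refine h2.of_eq fun B x => ?_
    have h4 : (uc fun k => (L x.1 0)^[k.unpair.1] B k.unpair.2) = ob (L x.1 0) B := by
      funext i q
      simp [uc, ob]
    rw [h4]
  refine UD.ex_lt (α := ℕ × (ℕ × ℕ)) (p := fun B x a => Fst (ob (L x.1 0) B) x.2.1 a ∧
    Pool.Agent.V7H67.IB.Ok x.2.1 a (dk x.2.2))
    (f := fun x => gK x.2.1 + 1) (UD.and ?_ ?_)
    (Primrec.succ.comp (gK_prim.comp (Primrec.fst.comp Primrec.snd))).to_comp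
  · exact h3.comp (f := fun y : (ℕ × (ℕ × ℕ)) × ℕ => (y.1.1, (y.1.2.1, y.2)))
      ((Primrec.fst.comp Primrec.fst).pair ((Primrec.fst.comp (Primrec.snd.comp
        Primrec.fst)).pair Primrec.snd)).to_comp
  · exact Ok_UD.comp (f := fun y : (ℕ × (ℕ × ℕ)) × ℕ => ((y.1.2.1, y.2), dk y.1.2.2))
      (((Primrec.fst.comp (Primrec.snd.comp Primrec.fst)).pair Primrec.snd).pair
        (dk_prim.comp (Primrec.snd.comp (Primrec.snd.comp Primrec.fst)))).to_comp

omit hL in
theorem col_UD : UD fun B (x : ℕ × ℕ) => col x.1 B x.2 = true :=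
  UD.query.comp (f := fun x : ℕ × ℕ => Nat.pair x.1 x.2)
    (Primrec₂.natPair.comp Primrec.fst Primrec.snd).to_comp

theorem sT_UD : UD fun B (x : ℕ × ℕ) => sT L x.1 B x.2 = true := by
  have h1 := UD.sub (F := fun B (i : ℕ) => col i B) col_UD (ap_i_UD L hL)
  refine (h1.comp (f := fun x : ℕ × ℕ => (x.2.unpair.1, (x.2.unpair.1,
    (dk ((dk x.1).getD x.2.unpair.1 0), x.2.unpair.2)))) ?_).of_eq fun B x => Iff.rfl
  have hu : Primrec fun x : ℕ × ℕ => x.2.unpair := Primrec.unpair.comp Primrec.snd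
  exact ((Primrec.fst.comp hu).pair ((Primrec.fst.comp hu).pair
    ((dk_prim.comp ((Primrec.list_getD 0).comp (dk_prim.comp Primrec.fst)
      (Primrec.fst.comp hu))).pair (Primrec.snd.comp hu)))).to_comp

theorem sR_UD : UD fun B (x : ℕ × ℕ) => sR L x.1 B x.2 := by
  have hlt : PrimrecPred fun x : ℕ × ℕ => x.1 < x.2 := Primrec.nat_lt.comp Primrec.fst Primrec.snd
  have hd : Primrec fun x : ℕ × ℕ => dk x.2 := dk_prim.comp Primrec.snd
  have h1 := UD.sub (F := fun B (i : ℕ) => col i B) col_UD (Rk_i_UD L hL)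
  refine UD.and (UD.of_prim (Primrec.eq.comp (Primrec.list_length.comp hd) Primrec.fst)) ?_
  refine UD.all_lt (α := ℕ × ℕ) (p := fun B x i => (dk x.2).getD i 0 < ck x.1 ∧
    Rk (L i 0) x.1 (col i B) ((dk x.2).getD i 0)) (f := fun x => x.1) (UD.and ?_ ?_)
    Computable.fst
  · have h2 : Primrec fun y : (ℕ × ℕ) × ℕ => (dk y.1.2).getD y.2 0 :=
      (Primrec.list_getD 0).comp (hd.comp Primrec.fst) Primrec.snd
    exact UD.of_comp hlt (h2.to_comp.pair (ck_comp.comp (Computable.fst.comp Computable.fst)))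
  · have h2 : Primrec fun y : (ℕ × ℕ) × ℕ => (dk y.1.2).getD y.2 0 :=
      (Primrec.list_getD 0).comp (hd.comp Primrec.fst) Primrec.snd
    exact h1.comp (f := fun y : (ℕ × ℕ) × ℕ => (y.2, (y.2, (y.1.1, (dk y.1.2).getD y.2 0))))
      (Primrec.snd.pair (Primrec.snd.pair ((Primrec.fst.comp Primrec.fst).pair h2))).to_comp

omit hL in
theorem sm_comp : Computable₂ sm := by
  have hj : Primrec fun x : ℕ × ℕ => dk x.1 := dk_prim.comp Primrec.fst
  have hk : Primrec fun x : ℕ × ℕ => dk x.2 := dk_prim.comp Primrec.snd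
  have h0 : Primrec₂ mk := Primrec.encode.comp (Primrec.list_append.comp
    (dk_prim.comp Primrec.fst) (dk_prim.comp Primrec.snd))
  have h1 : Primrec fun x : ℕ × ℕ => sm x.1 x.2 := by
    refine Primrec.encode.comp (Primrec.list_map (Primrec.list_range.comp
      (Primrec.nat_max.comp (Primrec.list_length.comp hj) (Primrec.list_length.comp hk))) ?_)
    exact h0.comp ((Primrec.list_getD 0).comp (hj.comp Primrec.fst) Primrec.snd)
      ((Primrec.list_getD 0).comp (hk.comp Primrec.fst) Primrec.snd)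
  exact h1.to_comp

omit hL in
theorem sc_comp : Computable sc := by
  have h1 : Computable fun n => bl (ck n) n :=
    Computable₂.comp (f := bl) bl_prim.to_comp ck_comp Computable.id
  exact Computable.succ.comp h1

end eff

end Pool.Agent.V7H75.TX
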