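import Pool.Agent.V7H75.TX.Sum

set_option autoImplicit false

/-!
Towers of changes: a column may be changed by maps which depend on the columns with larger numbers.
-/

namespace Pool.Agent.V7H75.TX

open Encodable Pool.Agent.Helper227
open Pool.Agent.V7H75.HF (Cl UD U1 evn odd evn_join odd_join)

/-- the orbits of the changes are bounded -/
def Bnd (α : ℕ → (ℕ → Bool) → ℕ → Bool) (N : ℕ → ℕ → ℕ) : Prop :=
  ∀ (n q : ℕ) (P : Set (ℕ → Bool)) (A : ℕ → Bool), P.encard ≤ q → (Orb α n P A).encard ≤ N n q

/-- the columns with numbers greater than `i`, the others are made empty -/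
def tl (i : ℕ) (A : ℕ → Bool) : ℕ → Bool := fun z => decide (i < z.unpair.1) && A z

/-- the columns from `i` on -/
def ge (i : ℕ) (A : ℕ → Bool) : ℕ → Bool := fun z => decide (i ≤ z.unpair.1) && A z

theorem tl_eq (i : ℕ) (A : ℕ → Bool) : tl i A = ge (i + 1) A := rfl

/-- the maps of the tower: the column `b.1` is changed -/
def tw (α : ℕ → (ℕ → Bool) → ℕ → Bool) (b : ℕ) (X : ℕ → Bool) : ℕ → Bool := fun z =>
  if z.unpair.1 = b.unpair.1 then
    α b.unpair.2 (join (col b.unpair.1 (evn X)) (join (tl b.unpair.1 (evn X)) (odd X))) z.unpair.2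
  else evn X z

section tower

variable {α : ℕ → (ℕ → Bool) → ℕ → Bool}

theorem col_tw (b : ℕ) (A Z : ℕ → Bool) : col b.unpair.1 (tw α b (join A Z)) =
    α b.unpair.2 (join (col b.unpair.1 A) (join (tl b.unpair.1 A) Z)) := by
  funext y
  unfold col tw
  rw [evn_join, odd_join, Nat.unpair_pair, if_pos rfl]
  rfl

theorem col_tw' {b j : ℕ} (h : j ≠ b.unpair.1) (A Z : ℕ → Bool) :
    col j (tw α b (join A Z)) = col j A := by
  funext y
  unfold col tw
  rw [evn_join, Nat.unpair_pair, if_neg h]

theorem ge_tw {b i : ℕ} (h : b.unpair.1 < i) (A Z : ℕ → Bool) :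
    ge i (tw α b (join A Z)) = ge i A := by
  funext z
  unfold ge tw
  rw [evn_join]
  by_cases h1 : i ≤ z.unpair.1
  · rw [if_neg (by omega)]
  · simp [h1]

theorem tw_inv (hα : ∀ l A Z, α l (join (α l (join A Z)) Z) = A) (b : ℕ) (A Z : ℕ → Bool) :
    tw α b (join (tw α b (join A Z)) Z) = A := by
  refine col_ext fun j => ?_
  by_cases h : j = b.unpair.1
  · have h2 : tl b.unpair.1 (tw α b (join A Z)) = tl b.unpair.1 A :=
      ge_tw (Nat.lt_succ_self _) A Z
    rw [h, col_tw, h2, col_tw, hα]
  · rw [col_tw' h, col_tw' h]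

/-- the bounds for the orbits of the tower -/
def tQ (N : ℕ → ℕ → ℕ) (n q : ℕ) : ℕ → ℕ
  | 0 => 1
  | j + 1 => tQ N n q j * N n (tQ N n q j * q)

def tN (N : ℕ → ℕ → ℕ) (n q : ℕ) : ℕ := tQ N n q n

/-- a column and the columns above it -/
def glue (i : ℕ) (x : (ℕ → Bool) × (ℕ → Bool)) : ℕ → Bool := fun z =>
  if z.unpair.1 = i then x.2 z.unpair.2 else x.1 z

theorem glue_eq (i : ℕ) (B : ℕ → Bool) : glue i (ge (i + 1) B, col i B) = ge i B := by
  funext z
  unfold glue ge col
  by_cases h : z.unpair.1 = i
  · rw [if_pos h]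
    subst h
    show B (Nat.pair z.unpair.1 z.unpair.2) = _
    rw [Nat.pair_unpair]
    simp
  · rw [if_neg h]
    have h1 : (i + 1 ≤ z.unpair.1) ↔ (i ≤ z.unpair.1) := by omega
    simp only [h1]

theorem tower_bound {N : ℕ → ℕ → ℕ} (hN : Bnd α N) : Bnd (tw α) (tN N) := by
  intro n q P A hP
  have key : ∀ j ≤ n, ∃ V : Set (ℕ → Bool), V.encard ≤ tQ N n q j ∧
      ∀ B ∈ Orb (tw α) n P A, ge (n - j) B ∈ V := by
    intro j
    induction j with
    | zero =>
      intro _
      refine ⟨{ge n A}, by simp [tQ], fun B hB => ?_⟩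
      rw [Nat.sub_zero, Set.mem_singleton_iff]
      induction hB with
      | refl => rfl
      | tail _ h2 ih =>
        obtain ⟨b, hb, p, -, rfl⟩ := h2
        rw [ge_tw ((Nat.unpair_left_le b).trans_lt hb), ih]
    | succ j ih =>
      intro hj
      obtain ⟨V, hV, hV'⟩ := ih (by omega)
      obtain ⟨i, hi⟩ : ∃ i, n - j = i + 1 := ⟨n - (j + 1), by omega⟩
      have hi' : n - (j + 1) = i := by omega
      rw [hi] at hV'
      rw [hi']
      let P' : Set (ℕ → Bool) := (fun x : (ℕ → Bool) × (ℕ → Bool) => join x.1 x.2) '' (V ×ˢ P)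
      have hP' : P'.encard ≤ (tQ N n q j * q : ℕ) := by
        refine (Set.encard_image_le _ _).trans ?_
        rw [Set.encard_prod]
        push_cast
        exact mul_le_mul' hV hP
      refine ⟨glue i '' (V ×ˢ Orb α n P' (col i A)), ?_, fun B hB => ?_⟩
      · refine (Set.encard_image_le _ _).trans ?_
        rw [Set.encard_prod]
        show _ ≤ ((tQ N n q j * N n (tQ N n q j * q) : ℕ) : ℕ∞)
        push_cast
        have h1 := hN n _ P' (col i A) hP'
        exact mul_le_mul' hV h1
      · refine ⟨(ge (i + 1) B, col i B), ⟨hV' B hB, ?_⟩, glue_eq i B⟩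
        show col i B ∈ Orb α n P' (col i A)
        induction hB with
        | refl => exact Relation.ReflTransGen.refl
        | @tail B C h1 h2 ih2 =>
          obtain ⟨b, hb, p, hp, rfl⟩ := h2
          by_cases h : i = b.unpair.1
          · refine Relation.ReflTransGen.tail ih2 ⟨b.unpair.2,
              (Nat.unpair_right_le b).trans_lt hb, join (ge (i + 1) B) p,
              ⟨(ge (i + 1) B, p), ⟨hV' B h1, hp⟩, rfl⟩, ?_⟩
            rw [h, col_tw]
            rfl
          · rw [col_tw' h]
            exact ih2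
  obtain ⟨V, hV, hV'⟩ := key n le_rfl
  refine (Set.encard_le_encard fun B hB => ?_).trans hV
  have h1 := hV' B hB
  rw [Nat.sub_self] at h1
  have h2 : ge 0 B = B := by
    funext z
    simp [ge]
  rwa [h2] at h1

end tower

/-! ### translations -/

/-- the translation by `F l Z` -/
def tr (F : ℕ → (ℕ → Bool) → ℕ → Bool) (l : ℕ) (X : ℕ → Bool) : ℕ → Bool :=
  fun y => xor (evn X y) (F l (odd X) y)

theorem tr_inv (F : ℕ → (ℕ → Bool) → ℕ → Bool) (l : ℕ) (A Z : ℕ → Bool) :
    tr F l (join (tr F l (join A Z)) Z) = A := by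
  funext y
  unfold tr
  rw [evn_join, odd_join, evn_join, odd_join]
  cases A y <;> cases F l Z y <;> rfl

theorem par_toggle {ι : Type} [DecidableEq ι] (s : Finset ι) (x : ι) (h : ι → Bool) :
    decide (((if x ∈ s then s.erase x else insert x s).filter fun y => h y = true).card % 2 = 1) =
      xor (decide ((s.filter fun y => h y = true).card % 2 = 1)) (h x) := by
  by_cases hx : x ∈ s
  · rw [if_pos hx, Finset.filter_erase]
    cases hh : h x with
    | false =>
      rw [Finset.erase_eq_of_notMem (by simp [hh])]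
      simp
    | true =>
      have h1 : x ∈ s.filter fun y => h y = true := by simp [hx, hh]
      rw [Finset.card_erase_of_mem h1]
      have h2 : 0 < (s.filter fun y => h y = true).card := Finset.card_pos.2 ⟨x, h1⟩
      rw [Bool.eq_iff_iff]
      simp only [decide_eq_true_eq, Bool.xor_true, Bool.not_eq_true', decide_eq_false_iff_not]
      omega
  · rw [if_neg hx, Finset.filter_insert]
    cases hh : h x with
    | false => simp
    | true =>
      rw [if_pos rfl, Finset.card_insert_of_notMem (by simp [hx])]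
      rw [Bool.eq_iff_iff]
      simp only [decide_eq_true_eq, Bool.xor_true, Bool.not_eq_true', decide_eq_false_iff_not]
      omega

open Classical in
theorem tr_bound (F : ℕ → (ℕ → Bool) → ℕ → Bool) : Bnd (tr F) fun n q => 2 ^ (n * q) := by
  intro n q P A hP
  have hfin := Set.finite_of_encard_le_coe hP
  let I : Finset (ℕ × (ℕ → Bool)) := Finset.range n ×ˢ hfin.toFinset
  let v : Finset (ℕ × (ℕ → Bool)) → ℕ → Bool := fun s y =>
    xor (A y) (decide ((s.filter fun x => F x.1 x.2 y = true).card % 2 = 1))
  have hsub : Orb (tr F) n P A ⊆ v '' (I.powerset : Set (Finset (ℕ × (ℕ → Bool)))) := by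
    intro B hB
    induction hB with
    | refl =>
      refine ⟨∅, by simp, ?_⟩
      funext y
      simp [v]
    | tail _ h2 ih =>
      obtain ⟨l, hl, p, hp, rfl⟩ := h2
      obtain ⟨s, hs, rfl⟩ := ih
      rw [Finset.mem_coe, Finset.mem_powerset] at hs
      have hx : (l, p) ∈ I := by
        rw [Finset.mem_product, Finset.mem_range, Set.Finite.mem_toFinset]
        exact ⟨hl, hp⟩
      refine ⟨if (l, p) ∈ s then s.erase (l, p) else insert (l, p) s, ?_, ?_⟩
      · rw [Finset.mem_coe, Finset.mem_powerset]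
        split_ifs with h
        · exact (Finset.erase_subset _ _).trans hs
        · exact Finset.insert_subset hx hs
      · funext y
        have h3 := par_toggle s (l, p) fun x => F x.1 x.2 y
        simp only at h3
        show xor (A y) (decide (((if (l, p) ∈ s then s.erase (l, p)
          else insert (l, p) s).filter fun x => F x.1 x.2 y = true).card % 2 = 1)) = _
        rw [h3]
        unfold tr
        rw [evn_join, odd_join]
        simp only [v]
        rw [Bool.xor_assoc]
  refine (Set.encard_le_encard hsub).trans ((Set.encard_image_le _ _).trans ?_)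
  rw [Set.encard_coe_eq_coe_finsetCard, Finset.card_powerset]
  have h1 : I.card ≤ n * q := by
    rw [Finset.card_product, Finset.card_range]
    refine Nat.mul_le_mul_left n ?_
    have h2 := hP
    rw [← Set.Finite.coe_toFinset hfin, Set.encard_coe_eq_coe_finsetCard] at h2
    exact_mod_cast h2
  exact_mod_cast Nat.pow_le_pow_right (by norm_num) h1

end Pool.Agent.V7H75.TX
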